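import Mathlib
import Pool.Agent.IP.EDP
import Pool.Agent.IPD.Uni
import Pool.Agent.UNI.PARU

set_option autoImplicit false

/-!
# UIP: uniform isolated primes, every modulus (MP_e1dc24_nt)

THEOREM `S_UIP`. There are absolute `c, C > 0` such that for every `ε > 0`, EVERY modulus `m ≥ m₀(ε)`, all `1 ≤ t ≤ c log log m` and all windows `ε ≤ b ≤ t`,
`0 ≤ a ≤ (1 - ε) b`, at least `exp (- exp (C t)) (b - a) φ(m)` classes modulo `m` contain exactly one prime `≤ t φ(m) log m`, and this prime is in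
`(a φ(m) log m, b φ(m) log m]`. It contains UniformLargeDeviations (for `x = m`) and IsolatedPrimesDensity (fixed `t`).

The analytic core `S_CORE` (helper28, folder `CRE`) is the only new input; the rest is the landed proof of IsolatedPrimesDensity (`IP`, `IPD`) with the explicit parameters of
`UNI`. Every `def S_X : Prop` below is the statement of a module, which proves `theorem t_X : M_X` in `Pool/Agent/UIP/X.lean`, namespace `UIP`; the proofs in the doc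
strings say which landed file is copied and what is changed. We write `L = log m`, `W = WW m L`, `H' = (φ(m)/m) log m`.
-/

namespace UIP

open Finset Pool.Agent.Lib_helper9.LG IP

noncomputable section

/-- The core inequality for one set of parameters: the error is relative to the main sum `Z = ZZ`. -/
def LPh (P : ℕ → Finset ℕ) (bb : ℕ → ℕ) (N m W b i n J : ℕ) (Q S : Finset ℕ)
    (L a B B1 : ℝ) : Prop :=
  |∑ x ∈ Pi m W b i n, lw m W b i x * Gf P bb N m W b Q S a B B1 x ^ 2 -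
      Th m W b i n * mn m W b n (fun x => Gf P bb N m W b Q S a B B1 x ^ 2)| ≤
    (Real.exp L / (W.totient * L ^ 20) + Real.exp (99 / 100 * L)) * EDP.ZZ P N J Q S a B B1

/-- CORE (helper28, folder CRE). The parameters are uniform: `η` may depend on `m`. -/
def S_CORE : Prop := ∃ m₀ : ℕ, ∀ m : ℕ, m₀ ≤ m → ∀ η : ℝ, 0 < η → η ≤ 1 / 10 ^ 8 →
  1 ≤ η ^ 8 * Real.log m →
  ∀ (P : ℕ → Finset ℕ) (bb : ℕ → ℕ) (N W b i n J : ℕ) (Q S : Finset ℕ) (L a B B1 VJ : ℝ),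
  Par η P bb N m W b i n Q S L a B B1 →
  EDP.Ctx P bb N m W b i n J Q S (Real.exp (η * L)) a B B1 VJ →
  (J : ℝ) * η ≤ 1 / 10 ^ 8 → 1 / L ^ (3 * J) ≤ VJ →
  LPh P bb N m W b i n J Q S L a B B1

/-- EDPU: the engine for one class, over the primes, with the core inequality.
PROOF. Copy `final` and `t_EDP` of Pool/Agent/IP/EDP.lean (import that file, all its lemmas and the structure `Ctx` are used as they are); `CRL`, `CRU`, `MOF` are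
`t_CRL`, `t_CRU`, `t_MOF` (files CRL, CRU, MOF of IP). The only change is the step `hA` (second moment over the primes): there `hLPG` is replaced by `LPh`, whose
right side is `(e₁ + e₂) Z ≤ (T / 8) Z` by the new hypothesis (`e₁ + e₂ ≤ T / 8`, and `Z ≥ 1`); so `∑_Pi lw G^2 ≥ (3/4) Z T - (1/8) T Z`, and the good part is
`≥ T Z (3/4 - 1/8 - 3/16) ≥ (7/16) T` as before. -/
def S_EDPU : Prop := ∀ (η : ℝ) (P : ℕ → Finset ℕ) (bb : ℕ → ℕ) (N m W b i n J : ℕ)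
  (Q S : Finset ℕ) (L a B B1 VJ G0 Λ D : ℝ), Par η P bb N m W b i n Q S L a B B1 → 0 < η →
  LPh P bb N m W b i n J Q S L a B B1 → 200 ≤ L →
  EDP.Ctx P bb N m W b i n J Q S (Real.exp (η * L)) a B B1 VJ →
  0 < Th m W b i n → 0 < D → 0 ≤ Λ → (∀ x < n, lw m W b i x ≤ Λ) →
  Λ * ((n : ℝ) * ((m.totient : ℝ) / m)) * VS (SS P N) 1 * (2 * (VS (SS P N) 1 * S.card)) *
    ((4 * J / Real.exp (η * L)) ^ 2 +
      Real.exp ((2 * a * (VS (SS P N) 1 * S.card) - (B - B1)) / B1)) ≤ Th m W b i n / 16 →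
  Λ * ((n : ℝ) * ((m.totient : ℝ) / m)) * (((S.card : ℝ) + 1) *
    ((2 ^ m.primeFactors.card * LV P bb N ^ 2 / ((n : ℝ) * ((m.totient : ℝ) / m))) *
      (Real.exp (3 * B) * 3) ^ 2)) ≤ Th m W b i n / 16 →
  (2 ^ m.primeFactors.card * LV P bb N ^ 2 / ((n : ℝ) * ((m.totient : ℝ) / m))) *
      (Real.exp (3 * B) * 3) ^ 2 ≤ 1 / 8 →
  Λ * ((n : ℝ) * ((m.totient : ℝ) / m)) * (((S.card : ℝ) + 1) *
    (2 * (4 * J * S.card / Real.exp (η * L)) / VJ)) ≤ Th m W b i n / 16 →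
  2 * (4 * J * S.card / Real.exp (η * L)) / VJ ≤ 1 / 8 →
  ((S.card : ℝ) + 1) ^ (4 * J) * (2 ^ m.primeFactors.card * LV P bb N ^ 4 /
        ((n : ℝ) * ((m.totient : ℝ) / m))) ≤ VS (SS P N) 1 →
  Real.exp L / (W.totient * L ^ 20) + Real.exp (99 / 100 * L) ≤ Th m W b i n / 8 →
  Λ * ((n : ℝ) * ((m.totient : ℝ) / m)) * VS (SS P N) 1 ≤ D * Th m W b i n →
  1 ≤ G0 → (∀ k ∈ S, ∀ x ∈ Om m W b n, ∏ l ∈ Q, (1 + |xx m l k (b + W * x)|) ≤ G0) →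
  Th m W b i n / (16 * (D * C4 G0 J (S.card * VS (SS P N) 1))) ≤
    ∑ x ∈ Gd P N m W b i n Q S, lw m W b i x

/-- BLHU: the blocks, uniform.
PROOF. As `t_BLH` (Pool/Agent/IP/BLH.lean) with `blkU` (Pool/Agent/UNI/BLKU.lean) instead of `blk`: filter the blocks of `blkU` by `L ^ 100 < l`. -/
def S_BLHU : Prop := ∃ L₀ : ℝ, ∀ L : ℝ, L₀ ≤ L → ∀ η : ℝ, 0 < η → ∀ b₀ : ℕ, ∀ m : ℕ, 1 ≤ m →
  ∃ (P : ℕ → Finset ℕ) (N : ℕ), (∀ i < N, ∀ j < N, i ≠ j → Disjoint (P i) (P j)) ∧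
    SS P N = SPH m L (Real.exp (η * L)) ∧ (∀ j < N, ∑ l ∈ P j, (1 : ℝ) / l ≤ 1) ∧
    LV P (fun j => b₀ + j) N ≤ Real.exp (8 * ((b₀ : ℝ) + 2) * (η * L))

/-- VSHU: lower bound for the densities, uniform.
PROOF. As `t_VSH` (Pool/Agent/IP/VSH.lean) with `vslU` (Pool/Agent/UNI/VSLU.lean): `SPH ⊆ SPr` and all factors are in `[0, 1]` for `L ≥ 2 J`, `L ≥ 1`. -/
def S_VSHU : Prop := ∃ c : ℝ, 0 < c ∧ ∀ η : ℝ, 0 < η → ∀ J : ℕ, ∀ L : ℝ, 1 ≤ L → 1 / η ≤ L →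
  c / η ≤ L → 2 * (J : ℝ) ≤ L → (η / c) ^ 2 ≤ L → ∀ m : ℕ, 1 ≤ m →
  ∀ j ≤ J, 1 / L ^ (3 * J) ≤ VS (SPH m L (Real.exp (η * L))) j

/-- KVHU: the expected number of rough sites, uniform.
PROOF. Copy `t_KVH` (Pool/Agent/IP/KVH.lean); `few` is `KVH.few` with the explicit conditions `1 ≤ L`, `4 A ≤ L` (its proof gives `L₁ = max 1 (4 A)`; compare `fewU`,
`kvbU` in Pool/Agent/UNI/KVBU.lean, where the same is done for `L ^ 4`), `hexp` is the hypothesis `L ^ 100 ≤ exp (η L)`, and `hlog` for `t = 1` gives it for all `t ≥ 1`. -/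
def S_KVHU : Prop := ∃ C : ℝ, 0 < C ∧ ∃ L₀ : ℝ, ∀ L : ℝ, L₀ ≤ L → ∀ t η : ℝ, 1 ≤ t → 0 < η →
  L ^ 100 ≤ Real.exp (η * L) → ∀ A : ℕ, 4 * (A : ℝ) ≤ L →
  ∀ m : ℕ, 1 ≤ m → Real.log m ≤ A * L → ∀ K : ℕ,
  (K : ℝ) ≤ t * ((m.totient : ℝ) / m) * L + 1 →
  2 * K * (((WW m L).totient : ℝ) / (WW m L)) * VS (SPH m L (Real.exp (η * L))) 1 ≤ C * t / η

/-- PARH: choice of the parameters, uniform.
PROOF. Copy `paramsU` (Pool/Agent/UNI/PARU.lean) with `u = η ^ 2 / (C' C₀)` instead of `η / (64 C₀)`: `log u = - 2 κ C₀ - log (C' C₀)`, `log (C' C₀) ≤ k₀ C₀` with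
`k₀ = |log C'| + 1`, `lamb = (4/3) (1 - log u) ≤ 2 (2 κ + k₀ + 1) C₀` (and `lamb ≥ 1` because one may assume `κ ≥ k₀`, so that `2 κ C₀ + log (C' C₀) ≥ 0`); `I ≤ k₁ C₀`,
`κ = k₁ + k₂ + 1`, and `2 ^ I η lamb ≤ e` for `k₂` large as there: `(2 κ + k₀ + 1) exp (- k₂)` tends to `0`. -/
def S_PARH : Prop := ∀ c e C' : ℝ, 0 < c → 0 < e → 0 < C' →
  ∃ κ : ℝ, 1 ≤ κ ∧ ∀ C₀ : ℝ, 1 ≤ C₀ → ∃ (η lamb : ℝ) (I : ℕ), Real.exp (-(κ * C₀)) ≤ η ∧ η ≤ e ∧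
      1 ≤ lamb ∧ 2 ^ I * (η * lamb) ≤ e ∧ 8 * C₀ / e + 1 ≤ c * I - 1 ∧
      Real.exp (1 - 3 / 4 * lamb) ≤ η ^ 2 / (C' * C₀) ∧ 1 ≤ I

/-- LARG: the numerical facts for large `L`, uniform.
PROOF. As `largeU` (Pool/Agent/UNI/PARU.lean; `eta_facts` there: `1/η ≤ sqrt L`, `sqrt L ≤ η² L ≤ η L`; `J ≤ 1/η`), with the list of facts of `EDQ.largeQ`
(Pool/Agent/IP/EDQ.lean). `L₀` such that `10 ^ 6 ≤ L` and `200 log L ≤ sqrt L`. Then `L ^ 100 ≤ exp (η L)`, `L ^ (3 J + 9) ≤ exp (η L)` as `(3 J + 9) log L ≤ (12/η) log L ≤ η L`,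
`L ^ (15 J + 1) ≤ exp (L / 2)` as `(16/η) log L ≤ L / 2`. Constants: `3072 ≤ L ^ 2`, `6912 ≤ L`; `J ≤ sqrt L ≤ L`, `L ^ 2 + 2 ≤ L ^ 3`. -/
def S_LARG : Prop := ∃ L₀ : ℝ, ∀ L : ℝ, L₀ ≤ L → ∀ (η D : ℝ) (J : ℕ), 0 < η → η ≤ 1 →
  1 ≤ η ^ 8 * L → (J : ℝ) * η ≤ 1 → D ≤ L ^ 4 →
    10 ^ 6 ≤ L ∧ 16 * (J : ℝ) + 16 ≤ L ∧ L ^ 100 ≤ Real.exp (η * L) ∧
    2 * ((J : ℝ) + 1) * (L ^ 2 + 1) * Real.exp (-(η * L)) ≤ 1 ∧
    D * Real.exp (-(η * L)) ≤ 1 ∧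
    6912 * L * (L ^ 2 + 2) * Real.exp (-(1 / 2 * L)) ≤ 1 ∧
    3072 * J * L * (L ^ 2 + 2) * (L ^ 2 + 1) * L ^ (3 * J) * Real.exp (-(η * L)) ≤ 1 ∧
    2 * (L ^ 2 + 2) ^ (4 * J) * L ^ (3 * J) * Real.exp (-(1 / 2 * L)) ≤ 1

open Classical in
/-- EDQU: the engine for one class, final form, uniform.
PROOF. Copy `t_EDQ` (Pool/Agent/IP/EDQ.lean), `e = 1 / 10^8`. Parameters from PARH with `c` of `sigU` (Pool/Agent/UNI/SIGU.lean), `C' = 64 * 24 * C3`, `C3` from KVHU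
(`t = 1`, `A = 1`); `κ` large: from `κ C₀ ≤ log L` and `exp (-(κ₀ C₀)) ≤ η`, `κ ≥ 8 κ₀`, one gets `1 ≤ η ^ 8 L`, so `eta_facts` and LARG apply (`D = 24576 C3 C₀ / η² J² ≤ L ^ 4` as
`J ≤ 1/η ≤ sqrt L`, `24576 C3 C₀ ≤ L` for `κ ≥ 1`, `m₀` large). Replace `hSIG`, `hBLH`, `hVSH`, `hKVH`, `OmD.om 1` by `sigU` (`2/η ≤ L`, `8/η² ≤ L`: from `sqrt L ≤ η² L`),
BLHU, VSHU (`c/η`, `2 J`, `(η/c)² ≤ L`), KVHU, `omu` (Pool/Agent/UNI/OMU.lean, `A = 1`), and `hLPG`, `hEDP` by CORE, EDPU (with `ctx_of` of Pool/Agent/IP/EDP.lean for the `Ctx`).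
The condition `Real.exp L / (φ(W) L ^ 20) + Real.exp (99/100 L) ≤ T / 8` follows from `T ≥ m / (8 φ(W))` and `128 ≤ L ^ 20` (no bound for `C4` is needed any more).
At the end `16 D C4 ≤ exp (exp (κ C₀))`, `D = 24 C3 / η`: `delta_bound` (Pool/Agent/UNI/EDU.lean) with `A = 1` (`E = ⌈2/η⌉₊` is its `E`) gives `8 C4 ≤ exp (2 exp (κ₁ C₀))`, and
`2 D ≤ 48 C3 exp (κ₀ C₀) ≤ exp (exp ((κ₀ + 48 C3 + 1) C₀))`. -/
def S_EDQU : Prop := ∃ κ : ℝ, 1 ≤ κ ∧ ∃ m₀ : ℕ, ∀ m : ℕ, m₀ ≤ m → ∀ C₀ : ℝ, 1 ≤ C₀ →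
  κ * C₀ ≤ Real.log (Real.log m) → ∃ η : ℝ, 0 < η ∧
  Real.log m ^ 100 ≤ Real.exp (η * Real.log m) ∧
  ∀ (b i : ℕ) (S : Finset ℕ), b < WW m (Real.log m) → (b + i * m).Coprime (WW m (Real.log m)) →
  2 ≤ i → (i : ℝ) ≤ Real.log m ^ 2 → (∀ k ∈ S, (k : ℝ) ≤ Real.log m ^ 2) → i ∉ S →
  S.card * VS (SPH m (Real.log m) (Real.exp (η * Real.log m))) 1 ≤ C₀ / η →
  (m : ℝ) / (8 * (WW m (Real.log m)).totient) ≤
    Th m (WW m (Real.log m)) b i (m / WW m (Real.log m)) →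
  Real.exp (-Real.exp (κ * C₀)) * Th m (WW m (Real.log m)) b i (m / WW m (Real.log m)) ≤
    ∑ x ∈ (Pi m (WW m (Real.log m)) b i (m / WW m (Real.log m))).filter (fun x => ∀ k ∈ S,
      ∃ l : ℕ, l.Prime ∧ (l : ℝ) ≤ Real.exp (Real.log m / 100) ∧
        l ∣ (b + WW m (Real.log m) * x) + k * m), lw m (WW m (Real.log m)) b i x

def M_EDQU : Prop := S_CORE → S_EDPU → S_BLHU → S_VSHU → S_KVHU → S_PARH → S_LARG → S_EDQU

/-- PSMU: the total weight of the primes of all classes and positions, uniform in the window.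
PROOF. Copy `t_PSM` (Pool/Agent/IP/PSM.lean; its lemmas `total`, `err`, `mainterm` are explicit and imported). `(v - u)/(8 (u + v)) ≥ e/16`, so the prime number theorem is used with
the fixed `e/16` (the lemma `mainterm` is monotone in `ε`: use it with `ε = (v - u)/(8 (u + v))` and `|θ(x)/x - 1| < e/16 ≤ ε`); `v - u ≥ e v ≥ e²` gives `16/(v - u) ≤ 16/e²` for
TOT, and `16 (1 + v)/(v - u) ≤ 16 (1 + log L)/e² ≤ sqrt L` for `m` large, as `v ≤ log log m = log L`. -/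
def S_PSMU : Prop := ∀ e : ℝ, 0 < e → ∃ m₀ : ℕ, ∀ m : ℕ, m₀ ≤ m → ∀ u v : ℝ, 0 < u →
  u ≤ (1 - e) * v → e ≤ v → v ≤ Real.log (Real.log m) →
  (v - u) / 2 * ((((m.totient : ℝ) / m) * Real.log m) * m) ≤
    ∑ i ∈ II m u v, ∑ b ∈ range (WW m (Real.log m)),
      Th m (WW m (Real.log m)) b i (m / WW m (Real.log m))

def M_PSMU : Prop := S_TOT → S_PSMU

open Classical in
/-- SELU: many good pairs, uniform.
PROOF. Copy `t_SEL` (Pool/Agent/IPD/SEL.lean): the constants are the same; the conditions on `m` are `m_B`, PSMU, TOT for `2/e` (as `u ≥ e`), and `v ≤ log m`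
(from `v ≤ log log m`, `m` large). -/
def S_SELU : Prop := ∃ C1 : ℝ, 0 < C1 ∧ ∃ c1 : ℝ, 0 < c1 ∧ ∀ e : ℝ, 0 < e → ∃ m₀ : ℕ, ∀ m : ℕ,
  m₀ ≤ m → ∀ u v t : ℝ, e ≤ u → u ≤ (1 - e) * v → v ≤ t → t ≤ Real.log (Real.log m) →
  c1 * (v - u) * ((((m.totient : ℝ) / m) * Real.log m) * (WW m (Real.log m)).totient) ≤
    ((GP m u v C1 ⌊t * (((m.totient : ℝ) / m) * Real.log m)⌋₊).card : ℝ)

def M_SELU : Prop := S_BT → S_KAV → S_TOT → S_PSMU → S_SELU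

/-- FINU: the theorem.
PROOF. Copy `t_FIN` (Pool/Agent/IPD/FIN.lean) with `u = (a + b)/2` (`u ≥ b/2 ≥ ε/2`, `u ≤ (1 - ε/2) b`: SELU with `e = ε/2`), `C₀ = (C1 C₂ + 1) t` (`C₂` of KVHU, used with
`A = 1`, `K = H + 1`), `η` and `δ = exp (- exp (κ C₀))` from EDQU. It gives `#iso ≥ (c1 δ / 96) (b - a) φ(m)`. Choose `C = κ (C1 C₂ + 1) + log-constant` such that
`exp (- exp (C t)) ≤ (c1/96) δ` for all `t ≥ 1`, and `c = min (1 / (2 C)) (1 / (κ (C1 C₂ + 1)))`, `c ≤ 1`: then `κ C₀ ≤ log log m`, `t ≤ log log m` and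
`δ ≥ exp (- exp (C t)) ≥ exp (- sqrt L)`. The smallness condition `asym` (negligible `c ≤ exp (L/100)`):
`(b L + 1)(exp (L/100) + 1) L ≤ (δ₁ δ/48) exp L` with `b ≤ log L`, `δ₁ = c1 (b - u) ≥ c1 ε²/2`, `δ ≥ exp (- sqrt L)`: true for `m ≥ m₀(ε)`. -/
def S_UIP : Prop := ∃ c C : ℝ, 0 < c ∧ 0 < C ∧ c * C ≤ 1 / 2 ∧ ∀ ε : ℝ, 0 < ε → ∃ m₀ : ℕ, ∀ m : ℕ,
  m₀ ≤ m → ∀ t a b : ℝ, 1 ≤ t → t ≤ c * Real.log (Real.log m) → 0 ≤ a → a ≤ (1 - ε) * b →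
  ε ≤ b → b ≤ t →
    Real.exp (-Real.exp (C * t)) * (b - a) * (m.totient : ℝ) ≤ ((IPD.iso m t a b).card : ℝ)

def M_FINU : Prop := S_EDQU → S_SELU → S_KVHU → S_TOT → S_UIP

end

end UIP
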