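import Mathlib
import Pool.Agent.UIP.St
import Pool.Agent.IP.EDQ
import Pool.Agent.UNI.EDU

set_option autoImplicit false
set_option linter.unusedSectionVars false
set_option linter.unusedSimpArgs false

/-!
Module EDQU (project UIP): the engine for one class, final form, uniform in the parameters.
-/

namespace UIP

open Finset Filter Pool.Agent.Lib_helper9.LG IP

noncomputable section

namespace EDQU

/-- The error terms of the core inequality. -/
lemma num_h5 {L W F T : ℝ} (hL : 10 ^ 6 ≤ L) (hF : 0 < F) (hFW : F ≤ W)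
    (hWL : W ≤ Real.exp (2 * Real.sqrt L)) (hT : Real.exp L / (8 * F) ≤ T) :
    Real.exp L / (F * L ^ 20) + Real.exp (99 / 100 * L) ≤ T / 8 := by
  have hL0 : 0 < L := lt_of_lt_of_le (by norm_num) hL
  have hE : 0 < Real.exp L := Real.exp_pos L
  have h128 : 128 ≤ L ^ 20 := by
    have h0 : (128 : ℝ) ≤ L := le_trans (by norm_num) hL
    exact h0.trans (le_self_pow₀ (by linarith) (by norm_num))
  have h1 : Real.exp L / (F * L ^ 20) ≤ Real.exp L / (128 * F) := by
    apply div_le_div_of_nonneg_left hE.le (by positivity)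
    rw [mul_comm 128 F]
    exact mul_le_mul_of_nonneg_left h128 hF.le
  have hsq : Real.sqrt L ≤ L / 1000 := IP.EDQ.sqrt_small hL
  have h2 : Real.exp (99 / 100 * L) ≤ Real.exp L / (128 * F) := by
    rw [le_div_iff₀ (by positivity)]
    have h3 : (128 : ℝ) ≤ Real.exp 127 := by
      have := Real.add_one_le_exp (127 : ℝ)
      linarith
    calc Real.exp (99 / 100 * L) * (128 * F) ≤
          Real.exp (99 / 100 * L) * (Real.exp 127 * Real.exp (2 * Real.sqrt L)) := by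
          apply mul_le_mul_of_nonneg_left _ (Real.exp_nonneg _)
          exact mul_le_mul h3 (hFW.trans hWL) hF.le (Real.exp_nonneg _)
      _ = Real.exp (99 / 100 * L + (127 + 2 * Real.sqrt L)) := by
          rw [Real.exp_add, Real.exp_add]
      _ ≤ Real.exp L := by
          apply Real.exp_le_exp.2
          have : (10 : ℝ) ^ 6 ≤ L := hL
          norm_num at this
          linarith
  have h3 : Real.exp L / (128 * F) + Real.exp L / (128 * F) = Real.exp L / (8 * F) / 8 := by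
    field_simp
    norm_num
  linarith

/-- The final constant. -/
lemma final_const {C₀ C₁ C3 η κ₀ X : ℝ} (hC₀ : 1 ≤ C₀) (hC₁ : 1 ≤ C₁) (hC3 : 0 < C3)
    (hη : 0 < η) (hκ₀ : 1 ≤ κ₀) (hηκ : Real.exp (-(κ₀ * C₀)) ≤ η) (hX : 0 ≤ X)
    (h8 : 8 * X ≤ Real.exp ((((1 : ℕ) : ℝ) + 1) * Real.exp ((8 * κ₀ + 4 * C₁ + 60) * C₀))) :
    16 * (24 * C3 / η * X) ≤
      Real.exp (Real.exp ((9 * κ₀ + 4 * C₁ + 48 * C3 + 62) * C₀)) := by
  have hC00 : 0 < C₀ := by linarith
  have h1 : 1 / η ≤ Real.exp (κ₀ * C₀) := by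
    rw [div_le_iff₀ hη]
    calc (1 : ℝ) = Real.exp (κ₀ * C₀) * Real.exp (-(κ₀ * C₀)) := by
          rw [← Real.exp_add]
          simp
      _ ≤ _ := mul_le_mul_of_nonneg_left hηκ (Real.exp_nonneg _)
  have h2 : 48 * C3 ≤ Real.exp (48 * C3 * C₀) := by
    have h3 := Real.add_one_le_exp (48 * C3 * C₀)
    have h4 : 48 * C3 ≤ 48 * C3 * C₀ := le_mul_of_one_le_right (by positivity) hC₀
    linarith
  have h3 : 48 * C3 / η ≤ Real.exp (Real.exp ((48 * C3 + κ₀) * C₀)) := by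
    have h4 : 48 * C3 / η ≤ Real.exp ((48 * C3 + κ₀) * C₀) := by
      calc 48 * C3 / η = 48 * C3 * (1 / η) := by ring
        _ ≤ Real.exp (48 * C3 * C₀) * Real.exp (κ₀ * C₀) :=
            mul_le_mul h2 h1 (by positivity) (Real.exp_nonneg _)
        _ = _ := by
            rw [← Real.exp_add]
            congr 1
            ring
    have h5 := Real.add_one_le_exp (Real.exp ((48 * C3 + κ₀) * C₀))
    linarith
  have h4 : 16 * (24 * C3 / η * X) = 48 * C3 / η * (8 * X) := by ring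
  rw [h4]
  refine (mul_le_mul h3 h8 (by positivity) (Real.exp_nonneg _)).trans ?_
  rw [← Real.exp_add]
  apply Real.exp_le_exp.2
  obtain ⟨Y, hY⟩ : ∃ Y : ℝ, Y = Real.exp ((9 * κ₀ + 4 * C₁ + 48 * C3 + 60) * C₀) := ⟨_, rfl⟩
  have h5 : Real.exp ((48 * C3 + κ₀) * C₀) ≤ Y := by
    rw [hY]
    apply Real.exp_le_exp.2
    apply mul_le_mul_of_nonneg_right _ hC00.le
    linarith
  have h6 : Real.exp ((8 * κ₀ + 4 * C₁ + 60) * C₀) ≤ Y := by
    rw [hY]
    apply Real.exp_le_exp.2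
    apply mul_le_mul_of_nonneg_right _ hC00.le
    linarith
  have hY0 : 0 ≤ Y := by rw [hY]; exact Real.exp_nonneg _
  have h7 : (3 : ℝ) ≤ Real.exp (2 * C₀) := by
    have := Real.add_one_le_exp (2 * C₀)
    linarith
  have h8' : Real.exp ((9 * κ₀ + 4 * C₁ + 48 * C3 + 62) * C₀) = Real.exp (2 * C₀) * Y := by
    rw [hY, ← Real.exp_add]
    congr 1
    ring
  rw [h8']
  have h9 : 3 * Y ≤ Real.exp (2 * C₀) * Y := mul_le_mul_of_nonneg_right h7 hY0
  push_cast
  linarith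

end EDQU

theorem t_EDQU : M_EDQU := by
  classical
  intro hCORE hEDP hBLH hVSH hKVH hPAR hLARG
  obtain ⟨c, hc, hSIG⟩ := Pool.Agent.UNI.sigU
  obtain ⟨C₁, hC₁, hG0⟩ := g0_bound
  obtain ⟨mc, hCORE⟩ := hCORE
  obtain ⟨L₂, hBLH⟩ := hBLH
  obtain ⟨cV, hcV, hVSH⟩ := hVSH
  obtain ⟨C3, hC3, L₅, hKVH⟩ := hKVH
  obtain ⟨L₆, hLARG⟩ := hLARG
  obtain ⟨L₄, hOM⟩ := Pool.Agent.UNI.omu
  obtain ⟨e, he⟩ : ∃ e : ℝ, e = 1 / 10 ^ 8 := ⟨_, rfl⟩
  have he0 : 0 < e := by rw [he]; norm_num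
  have he1 : e ≤ 1 := by rw [he]; norm_num
  obtain ⟨κ₀, hκ₀, hpar⟩ := hPAR c e (64 * 24 * C3) hc he0 (by positivity)
  obtain ⟨L₀, hL₀⟩ : ∃ L₀ : ℝ, L₀ = max (max (max L₂ L₄) (max L₅ L₆))
    (max (max (cV ^ 2) (1 / cV ^ 2)) (max (24576 * C3) (Real.exp 60))) := ⟨_, rfl⟩
  refine ⟨9 * κ₀ + 4 * C₁ + 48 * C3 + 62, by linarith, max mc (⌈Real.exp L₀⌉₊ + 1),
    fun m hmm C₀ hC₀1 hκC => ?_⟩
  have hC₀ : 0 < C₀ := by linarith
  have hmm₁ : mc ≤ m := (le_max_left _ _).trans hmm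
  have hmm₂ : ⌈Real.exp L₀⌉₊ + 1 ≤ m := (le_max_right _ _).trans hmm
  have hm : 1 ≤ m := by omega
  have hm0 : (0 : ℝ) < m := by exact_mod_cast hm
  obtain ⟨L, hL⟩ : ∃ L : ℝ, L = Real.log m := ⟨_, rfl⟩
  have hexp : Real.exp L = m := by rw [hL, Real.exp_log hm0]
  have hLL : L₀ ≤ L := by
    rw [← Real.exp_le_exp, hexp]
    refine (Nat.le_ceil _).trans ?_
    exact_mod_cast (by omega : ⌈Real.exp L₀⌉₊ ≤ m)
  rw [← hL] at hκC ⊢
  have k1 : max (max L₂ L₄) (max L₅ L₆) ≤ L := by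
    refine le_trans ?_ hLL
    rw [hL₀]
    exact le_max_left _ _
  have k2 : max (max (cV ^ 2) (1 / cV ^ 2)) (max (24576 * C3) (Real.exp 60)) ≤ L := by
    refine le_trans ?_ hLL
    rw [hL₀]
    exact le_max_right _ _
  have e11 : L₂ ≤ L := (le_max_left _ _).trans ((le_max_left _ _).trans k1)
  have e9 : L₄ ≤ L := (le_max_right _ _).trans ((le_max_left _ _).trans k1)
  have e14 : L₅ ≤ L := (le_max_left _ _).trans ((le_max_right _ _).trans k1)
  have e15 : L₆ ≤ L := (le_max_right _ _).trans ((le_max_right _ _).trans k1)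
  have hLc1 : cV ^ 2 ≤ L := (le_max_left _ _).trans ((le_max_left _ _).trans k2)
  have hLc2 : 1 / cV ^ 2 ≤ L := (le_max_right _ _).trans ((le_max_left _ _).trans k2)
  have hLC3 : 24576 * C3 ≤ L := (le_max_left _ _).trans ((le_max_right _ _).trans k2)
  have hL60 : Real.exp 60 ≤ L := (le_max_right _ _).trans ((le_max_right _ _).trans k2)
  have hL1 : 1 ≤ L := by
    have := Real.add_one_le_exp (60 : ℝ)
    linarith
  have hL0 : 0 < L := by linarith
  have hlog60 : 60 ≤ Real.log L := (Real.le_log_iff_exp_le hL0).2 hL60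
  obtain ⟨η, lamb, I, hηκ, hηe, hlamb, hI1, hI2, hI3, hI4⟩ := hpar C₀ hC₀1
  have hη : 0 < η := (Real.exp_pos _).trans_le hηκ
  have hη1 : η ≤ 1 := hηe.trans he1
  have h8κ : 8 * κ₀ * C₀ ≤ Real.log L := by
    have h1 : 0 ≤ (κ₀ + 4 * C₁ + 48 * C3 + 62) * C₀ := by positivity
    linarith
  have hClog : C₀ ≤ Real.log L := by
    have h1 : 0 ≤ (9 * κ₀ + 4 * C₁ + 48 * C3 + 61) * C₀ := by positivity
    linarith
  have hCL : C₀ ≤ L := by
    have h1 := Real.add_one_le_exp (Real.log L)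
    rw [Real.exp_log hL0] at h1
    linarith
  have h8 : 1 ≤ η ^ 8 * L := by
    have h1 : Real.exp (-(κ₀ * C₀)) ^ 8 ≤ η ^ 8 := pow_le_pow_left₀ (Real.exp_nonneg _) hηκ 8
    have h2 : Real.exp (-(κ₀ * C₀)) ^ 8 = Real.exp (-(8 * κ₀ * C₀)) := by
      rw [← Real.exp_nat_mul]
      congr 1
      push_cast
      ring
    rw [h2] at h1
    calc (1 : ℝ) = Real.exp 0 := Real.exp_zero.symm
      _ ≤ Real.exp (-(8 * κ₀ * C₀) + Real.log L) := Real.exp_le_exp.2 (by linarith)
      _ = Real.exp (-(8 * κ₀ * C₀)) * L := by rw [Real.exp_add, Real.exp_log hL0]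
      _ ≤ η ^ 8 * L := mul_le_mul_of_nonneg_right h1 (by linarith)
  obtain ⟨a1, a2, a3, a4⟩ := Pool.Agent.UNI.eta_facts hη hη1 hL1 h8
  have hss : Real.sqrt L * Real.sqrt L = L := Real.mul_self_sqrt (by linarith)
  have hs1 : 1 ≤ Real.sqrt L := Real.one_le_sqrt.2 hL1
  obtain ⟨J, hJ⟩ : ∃ J : ℕ, J = ⌊e / η⌋₊ := ⟨_, rfl⟩
  have hJ1 : (J : ℝ) * η ≤ e := by
    have h1 : (J : ℝ) ≤ e / η := by
      rw [hJ]
      exact Nat.floor_le (by positivity)
    rwa [le_div_iff₀ hη] at h1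
  have hJ2 : e < ((J : ℝ) + 1) * η := by
    have h1 : e / η < (J : ℝ) + 1 := by
      rw [hJ]
      exact Nat.lt_floor_add_one _
    rwa [div_lt_iff₀ hη] at h1
  have hJ0 : (0 : ℝ) ≤ J := Nat.cast_nonneg J
  have hJ3 : 1 ≤ J := by
    rw [hJ]
    apply Nat.le_floor
    rw [le_div_iff₀ hη]
    push_cast
    linarith
  obtain ⟨E, hE⟩ : ∃ E : ℕ, E = ⌈(((1 : ℕ) : ℝ) + 1) / η⌉₊ := ⟨_, rfl⟩
  have hE2 : ((1 : ℕ) : ℝ) + 1 = 2 := by norm_num
  obtain ⟨G0, hG0d⟩ : ∃ G0 : ℝ, G0 = 2 ^ E * (C₁ * (e / lamb / η)) := ⟨_, rfl⟩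
  have hlamb0 : 0 < lamb := by linarith
  have hratio : 1 ≤ e / lamb / η := by
    rw [le_div_iff₀ hη, le_div_iff₀ hlamb0, one_mul]
    have h1 : (1 : ℝ) ≤ 2 ^ I := one_le_pow₀ (by norm_num)
    have h2 : 0 ≤ η * lamb := by positivity
    have h3 : 1 * (η * lamb) ≤ 2 ^ I * (η * lamb) := mul_le_mul_of_nonneg_right h1 h2
    linarith
  have hG01 : 1 ≤ G0 := by
    rw [hG0d]
    have h1 : (1 : ℝ) ≤ 2 ^ E := one_le_pow₀ (by norm_num)
    exact one_le_mul_of_one_le_of_one_le h1 (one_le_mul_of_one_le_of_one_le hC₁ hratio)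
  have hC40 : 0 < C4 G0 J (C₀ / η) := by
    have : 0 < G0 := by linarith
    unfold C4
    positivity
  have hδ := Pool.Agent.UNI.delta_bound (A := 1) (κ₀ := κ₀) hC₀1 hC₁ hη hη1 he1 he0 hlamb hκ₀
    hηκ hJ1 hE hG0d (C4 := C4 G0 J (C₀ / η)) rfl
  have hfinal := EDQU.final_const hC₀1 hC₁ hC3 hη hκ₀ hηκ hC40.le hδ
  obtain ⟨D, hD⟩ : ∃ D : ℝ, D = 24 * C3 / η := ⟨_, rfl⟩
  have hD0 : 0 < D := by rw [hD]; positivity
  rw [← hD] at hfinal
  have hDJ : 24576 * C3 * C₀ / η ^ 2 * (J : ℝ) ^ 2 ≤ L ^ 4 := by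
    obtain ⟨X, hX⟩ : ∃ X : ℝ, X = 1 / η := ⟨_, rfl⟩
    rw [← hX] at a1
    have hX0 : 0 ≤ X := by rw [hX]; positivity
    have hJX : (J : ℝ) ≤ X := by
      rw [hX, le_div_iff₀ hη]
      linarith
    have hX2 : X * X ≤ L := by
      calc X * X ≤ Real.sqrt L * Real.sqrt L := mul_le_mul a1 a1 hX0 (Real.sqrt_nonneg _)
        _ = L := hss
    have hJ2X : (J : ℝ) ^ 2 ≤ X * X := by
      rw [pow_two]
      exact mul_le_mul hJX hJX hJ0 hX0
    have e1 : 24576 * C3 * C₀ / η ^ 2 * (J : ℝ) ^ 2 =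
        (24576 * C3) * C₀ * ((X * X) * (J : ℝ) ^ 2) := by
      rw [hX]
      field_simp
    rw [e1]
    calc (24576 * C3) * C₀ * ((X * X) * (J : ℝ) ^ 2) ≤ (L * L) * (L * L) := by
          apply mul_le_mul _ _ (by positivity) (by positivity)
          · exact mul_le_mul hLC3 hCL (by linarith) (by linarith)
          · exact mul_le_mul hX2 (hJ2X.trans hX2) (by positivity) (by linarith)
      _ = L ^ 4 := by ring
  obtain ⟨e1, e2, e3, e4, e5, e6, e7, e8⟩ := hLARG L e15 η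
    (24576 * C3 * C₀ / η ^ 2 * (J : ℝ) ^ 2) J hη hη1 h8 (hJ1.trans he1) hDJ
  refine ⟨η, hη, e3, fun b i S hb hbi hi hiL hSk hiS hSV hTh => ?_⟩
  have hL200 : 200 ≤ L := le_trans (by norm_num) e1
  have hmL : Real.log m ≤ ((1 : ℕ) : ℝ) * L := by
    rw [hL]
    simp
  obtain ⟨P, N, hd, hSS, hsum, hLV⟩ := hBLH L e11 η hη (700 * (J + 1)) m hm
  have hsL : Real.sqrt L ≤ L := by
    calc Real.sqrt L = 1 * Real.sqrt L := (one_mul _).symm
      _ ≤ Real.sqrt L * Real.sqrt L := mul_le_mul_of_nonneg_right hs1 (Real.sqrt_nonneg _)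
      _ = L := hss
  have hVSL' := hVSH η hη J L hL1 (a1.trans hsL)
    (by
      have h1 : cV ≤ Real.sqrt L := Real.le_sqrt_of_sq_le hLc1
      calc cV / η = cV * (1 / η) := by ring
        _ ≤ Real.sqrt L * Real.sqrt L := mul_le_mul h1 a1 (by positivity) (Real.sqrt_nonneg _)
        _ = L := hss)
    (by linarith)
    (by
      rw [div_pow]
      refine le_trans ?_ hLc2
      apply div_le_div_of_nonneg_right _ (by positivity)
      exact pow_le_one₀ hη.le hη1)
    m hm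
  have hω := hOM L e9 1 (by push_cast; linarith) m hm hmL
  obtain ⟨W, hW⟩ : ∃ W : ℕ, W = WW m L := ⟨_, rfl⟩
  have hW1 : 1 ≤ W := by rw [hW]; exact THDd.WW_pos m L
  have hWm : W.Coprime m := by rw [hW]; exact THDd.WW_coprime m L
  have hWL : (W : ℝ) ≤ Real.exp (2 * Real.sqrt L) := by rw [hW]; exact IP.EDQ.W_le hL0.le
  have hWp : ∀ p : ℕ, p.Prime → p ∣ W → (p : ℝ) ≤ L ^ 100 := by
    intro p hp hpW
    rw [hW] at hpW
    have h1 := (THDd.dvd_WW hp hpW).1
    have h2 : (p : ℝ) ≤ Real.sqrt L := by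
      have h3 : (p : ℝ) ≤ (⌊Real.sqrt L⌋₊ : ℝ) := by exact_mod_cast h1
      exact h3.trans (Nat.floor_le (Real.sqrt_nonneg L))
    have h3 : Real.sqrt L ≤ L := by
      have := IP.EDQ.sqrt_small e1
      linarith
    exact (h2.trans h3).trans (le_self_pow₀ hL1 (by norm_num))
  have hKV3 := hKVH L e14 1 η le_rfl hη e3 1 (by push_cast; linarith) m hm hmL (⌊((m.totient : ℝ) / m) * L⌋₊ + 1) (by
    push_cast
    have : (⌊((m.totient : ℝ) / m) * L⌋₊ : ℝ) ≤ ((m.totient : ℝ) / m) * L :=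
      Nat.floor_le (by positivity)
    linarith)
  rw [← hW] at hb hbi hTh hKV3 ⊢
  have hW0 : (0 : ℝ) < W := by exact_mod_cast hW1
  have htW : (0 : ℝ) < W.totient := by exact_mod_cast Nat.totient_pos.2 hW1
  have htWle : (W.totient : ℝ) ≤ W := by exact_mod_cast Nat.totient_le W
  have htot : (0 : ℝ) < m.totient := by exact_mod_cast Nat.totient_pos.2 hm
  have htotle : (m.totient : ℝ) ≤ m := by exact_mod_cast Nat.totient_le m
  obtain ⟨B1, hB1⟩ : ∃ B1 : ℝ, B1 = e * L / lamb := ⟨_, rfl⟩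
  have hB1I : 2 ^ I * (η * L) ≤ B1 := by
    rw [hB1, le_div_iff₀ hlamb0]
    calc 2 ^ I * (η * L) * lamb = (2 ^ I * (η * lamb)) * L := by ring
      _ ≤ e * L := by gcongr
  have hσ := hSIG η hη 1 I L hL1
    (by
      have h1 : 2 / η = 2 * (1 / η) := by ring
      have h2 : 1000 ≤ Real.sqrt L := Real.le_sqrt_of_sq_le (by norm_num at e1 ⊢; linarith)
      rw [h1]
      calc 2 * (1 / η) ≤ Real.sqrt L * Real.sqrt L :=
            mul_le_mul (by linarith) a1 (by positivity) (Real.sqrt_nonneg _)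
        _ = L := hss)
    (by
      rw [div_le_iff₀ (by positivity)]
      have h2 : 1000 ≤ Real.sqrt L := Real.le_sqrt_of_sq_le (by norm_num at e1 ⊢; linarith)
      have h3 : L * η ^ 2 = η ^ 2 * L := mul_comm _ _
      rw [h3]
      push_cast
      linarith)
    m hm hmL B1 hB1I
  have hlogz : Real.log (Real.exp (η * L)) = η * L := Real.log_exp _
  obtain ⟨Q, hQ⟩ : ∃ Q : Finset ℕ, Q = BPr m (Real.exp (η * L)) (Real.exp B1) := ⟨_, rfl⟩
  have hB10 : 0 < B1 := by rw [hB1]; positivity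
  have hηB1 : η * L ≤ B1 := by
    have h1 : (1 : ℝ) ≤ 2 ^ I := one_le_pow₀ (by norm_num)
    have h2 : 0 ≤ η * L := by positivity
    exact (le_mul_of_one_le_left h2 h1).trans hB1I
  have hzR : Real.exp (η * L) ≤ Real.exp B1 := Real.exp_le_exp.2 hηB1
  have hexpB1 : 0 ≤ Real.exp B1 := Real.exp_nonneg _
  have hz0 : 0 < Real.exp (η * L) := Real.exp_pos _
  have hL24 : L ^ 2 < L ^ 100 := pow_lt_pow_right₀ (by linarith) (by norm_num)
  have hLL100 : L ≤ L ^ 100 := le_self_pow₀ hL1 (by norm_num)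
  have hz2 : 2 ≤ Real.exp (η * L) := by linarith
  have hSSm : ∀ l ∈ SS P N, l.Prime ∧ L ^ 100 < (l : ℝ) ∧ ¬ l ∣ m ∧ (l : ℝ) ≤ Real.exp (η * L) := by
    intro l hl
    rw [hSS] at hl
    exact IP.EDQ.mem_SPH hz0.le hl
  have hQm : ∀ l ∈ Q, l.Prime ∧ Real.exp (η * L) < (l : ℝ) ∧ ¬ l ∣ m ∧ (l : ℝ) ≤ Real.exp B1 := by
    intro l hl
    rw [hQ] at hl
    exact mem_BPr hexpB1 hl
  have hcardS : (S.card : ℝ) ≤ L ^ 2 + 1 := by
    have h1 : S ⊆ range (⌊L ^ 2⌋₊ + 1) := by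
      intro k hk
      rw [mem_range]
      have := Nat.le_floor (hSk k hk)
      omega
    have h2 := card_le_card h1
    rw [card_range] at h2
    have h3 : (S.card : ℝ) ≤ (⌊L ^ 2⌋₊ : ℝ) + 1 := by exact_mod_cast h2
    have h4 : (⌊L ^ 2⌋₊ : ℝ) ≤ L ^ 2 := Nat.floor_le (by positivity)
    linarith
  have hS0 : (0 : ℝ) ≤ S.card := Nat.cast_nonneg _
  obtain ⟨lam, hlam⟩ : ∃ lam : {l // l ∈ Q} → ℝ,
      lam = fun i : {l // l ∈ Q} => Real.log ((i : ℕ) : ℝ) := ⟨_, rfl⟩
  obtain ⟨q, hq⟩ : ∃ q : {l // l ∈ Q} → ℝ, q = fun i : {l // l ∈ Q} => ((i : ℕ) : ℝ) - 1 :=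
    ⟨_, rfl⟩
  obtain ⟨σ, hσd⟩ : ∃ σ : ℝ, σ = ∑ T, s0 lam q B1 T := ⟨_, rfl⟩
  have hσ2 : (c * I - 1) / (η * L) ≤ σ := by
    rw [hσd, hlam, hq]
    subst hQ
    exact hσ
  have hcI : 0 < c * I - 1 := by
    have : 0 < 8 * C₀ / e := by positivity
    linarith
  have hcI1 : 1 ≤ c * I - 1 := by
    have : 0 < 8 * C₀ / e := by positivity
    linarith
  have hσ0 : 0 < σ := lt_of_lt_of_le (by positivity) hσ2
  have ha1 : 1 / σ ≤ η * L / (c * I - 1) := by
    rw [div_le_div_iff₀ hσ0 hcI, one_mul]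
    rw [div_le_iff₀ (by positivity)] at hσ2
    linarith
  have ha2 : 1 / σ ≤ η * L := by
    refine ha1.trans ?_
    exact div_le_self (by positivity) hcI1
  -- the range
  obtain ⟨n, hn⟩ : ∃ n : ℕ, n = m / W := ⟨_, rfl⟩
  have hn' : n = ⌊Real.exp L / W⌋₊ := by
    rw [hexp, Nat.floor_div_eq_div, hn]
  obtain ⟨M, hM⟩ : ∃ M : ℝ, M = (n : ℝ) * ((m.totient : ℝ) / m) := ⟨_, rfl⟩
  have hsq : Real.sqrt L ≤ L / 1000 := IP.EDQ.sqrt_small e1
  have hW8 : (W : ℝ) ^ 8 ≤ Real.exp L := by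
    calc (W : ℝ) ^ 8 ≤ (Real.exp (2 * Real.sqrt L)) ^ 8 := by gcongr
      _ = Real.exp (16 * Real.sqrt L) := by
          rw [← Real.exp_nat_mul]
          congr 1
          push_cast
          ring
      _ ≤ Real.exp L := by
          apply Real.exp_le_exp.2
          linarith
  obtain ⟨hn0, hn1, hM0, hωM⟩ := num_om hL200 hm hW1 hW8 hn' hω hM
  rw [← hn] at hTh ⊢
  obtain ⟨T, hT⟩ : ∃ T : ℝ, T = Th m W b i n := ⟨_, rfl⟩
  rw [← hT] at hTh ⊢
  have hT1' : Real.exp L / (8 * W.totient) ≤ T := by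
    rw [hexp]
    exact hTh
  have hT1 : Real.exp L / (8 * W) ≤ T := by
    rw [hexp]
    refine le_trans ?_ hTh
    gcongr
  have hT0 : 0 < T := lt_of_lt_of_le (by positivity) hT1
  -- the level
  obtain ⟨bb, hbb⟩ : ∃ bb : ℕ → ℕ, bb = fun j => 700 * (J + 1) + j := ⟨_, rfl⟩
  rw [← hbb] at hLV
  have hLV0 : 0 ≤ LV P bb N := by
    unfold LV
    apply Finset.prod_nonneg
    intro j _
    have : 0 ≤ ∑ l ∈ P j, (l : ℝ) := Finset.sum_nonneg fun l _ => Nat.cast_nonneg l
    positivity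
  have hLV1 : LV P bb N ≤ Real.exp (L / 1000) := by
    refine hLV.trans (Real.exp_le_exp.2 (IP.EDQ.num_lv hL0 ?_ ?_))
    · rw [← he]
      exact hηe
    · rw [← he]
      exact hJ1
  have hLV2 : LV P bb N ^ 2 ≤ Real.exp (L / 500) := by
    have h1 := pow_le_pow_left₀ hLV0 hLV1 2
    refine h1.trans (le_of_eq ?_)
    rw [← Real.exp_nat_mul]
    congr 1
    push_cast
    ring
  have hLV4 : LV P bb N ^ 4 ≤ Real.exp (L / 250) := by
    have h1 := pow_le_pow_left₀ hLV0 hLV1 4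
    refine h1.trans (le_of_eq ?_)
    rw [← Real.exp_nat_mul]
    congr 1
    push_cast
    ring
  obtain ⟨V1, hV1⟩ : ∃ V1 : ℝ, V1 = VS (SS P N) 1 := ⟨_, rfl⟩
  have hV10 : 0 ≤ V1 := by
    rw [hV1]
    apply VS_nonneg
    intro l hl
    exact (hSSm l hl).1.one_le
  have hVK : V1 * S.card ≤ C₀ / η := by
    rw [hV1, hSS, mul_comm]
    exact hSV
  have hKV : (S.card : ℝ) * V1 ≤ C₀ / η := by
    rw [mul_comm]
    exact hVK
  have hVK0 : 0 ≤ V1 * S.card := by positivity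
  -- the sizes
  have hnW : (n : ℝ) ≤ m / W := by
    rw [hn]
    exact Nat.cast_div_le
  have hMle : M ≤ m / W := by
    rw [hM]
    refine le_trans ?_ hnW
    apply mul_le_of_le_one_right (by positivity)
    rw [div_le_one hm0]
    exact htotle
  have hΛM : 3 * L * M ≤ 24 * L * T := by
    calc 3 * L * M ≤ 3 * L * (m / W) := by gcongr
      _ = 24 * L * (Real.exp L / (8 * W)) := by
          rw [hexp]
          field_simp
          ring
      _ ≤ 24 * L * T := by gcongr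
  have hΛMV : 3 * L * M * V1 ≤ D * T := by
    have h1 : 2 * (((m.totient : ℝ) / m) * L) * ((W.totient : ℝ) / W) * V1 ≤ C3 / η := by
      have h2 : ((m.totient : ℝ) / m) * L ≤ ((⌊((m.totient : ℝ) / m) * L⌋₊ + 1 : ℕ) : ℝ) := by
        push_cast
        exact (Nat.lt_floor_add_one _).le
      rw [← hSS, ← hV1, mul_one] at hKV3
      refine le_trans ?_ hKV3
      gcongr
    calc 3 * L * M * V1 ≤ 3 * L * (m / W * ((m.totient : ℝ) / m)) * V1 := by
          rw [hM]
          gcongr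
      _ = 12 * (2 * (((m.totient : ℝ) / m) * L) * ((W.totient : ℝ) / W) * V1) *
          (m / (8 * W.totient)) := by
          field_simp
          ring
      _ ≤ 12 * (C3 / η) * T := by gcongr
      _ ≤ D * T := by
          rw [hD]
          have : 0 ≤ C3 / η * T := by positivity
          have h3 : 24 * C3 / η * T = 24 * (C3 / η * T) := by ring
          rw [h3]
          linarith
  have hPar : Par η P bb N m W b i n Q S L (1 / σ) (e * L) B1 :=
    { hL := hL
      hm := hm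
      hW := hW1
      hWL := hWL
      hWm := hWm
      hb := hb
      hbi := hbi
      hi := hi
      hiL := hiL
      hn := hn
      hd := hd
      hS := by
        intro l hl
        obtain ⟨g1, g2, g3, g4⟩ := hSSm l hl
        exact ⟨g1, g3, fun h => absurd (hWp l g1 h) (not_le.2 g2), g2, g4⟩
      hQ := by
        intro l hl
        obtain ⟨g1, g2, g3, g4⟩ := hQm l hl
        exact ⟨g1, g3, fun h => absurd (hWp l g1 h) (not_le.2 (e3.trans_lt g2)), g2, g4⟩
      hk := hSk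
      hiS := hiS
      hLV := hLV1
      ha := by positivity
      haη := ha2
      hB1 := hB10
      hB1B := by
        rw [hB1]
        exact div_le_self (by positivity) hlamb
      hB := by
        rw [he]
        have := hL0.le
        norm_num
        linarith }
  have hh2 : 384 * L * (((S.card : ℝ) + 1) * (2 ^ m.primeFactors.card * LV P bb N ^ 2 / M *
      (Real.exp (3 * (e * L)) * 3) ^ 2)) ≤ 1 :=
    IP.EDQ.num_h2 hS0 hcardS hL1 hM0 (by positivity) hωM (by positivity) hLV2 he e6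
  have hh3 := IP.EDQ.num_h3 (J := J) (η := η) hS0 hcardS hL0 e7
  have hh4 := IP.EDQ.num_h4 (J := J) hS0 hcardS hL1 hM0 (p := 2 ^ m.primeFactors.card)
    (by positivity) hωM (v := LV P bb N ^ 4) (by positivity) hLV4 e8
  have hctx : EDP.Ctx P bb N m W b i n J Q S (Real.exp (η * L)) (1 / σ) (e * L) B1
      (1 / L ^ (3 * J)) := EDP.ctx_of hPar hL200 e3 (e2.trans hLL100) hn0 hsum
    (by
      intro j _
      rw [hbb])
    (by
      have h1 : ∑ T : Finset {l // l ∈ Q}, s0 (fun i : {l // l ∈ Q} => Real.log ((i : ℕ) : ℝ))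
          (fun i : {l // l ∈ Q} => ((i : ℕ) : ℝ) - 1) B1 T = σ := by
        rw [hσd, hlam, hq]
      rw [h1]
      field_simp)
    (by
      calc e * L < (((J : ℝ) + 1) * η) * L := by gcongr
        _ = _ := by ring)
    (by positivity)
    (by
      intro j hj
      rw [hSS]
      exact hVSL' j hj)
    (by
      have h1 : 2 * ((J : ℝ) + 1) * S.card / Real.exp (η * L) =
          2 * ((J : ℝ) + 1) * S.card * Real.exp (-(η * L)) := by
        rw [Real.exp_neg]
        rfl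
      rw [h1]
      refine le_trans ?_ e4
      gcongr)
  have hcore := hCORE m hmm₁ η hη (by rw [← he]; exact hηe) (by rw [← hL]; exact h8) P bb N W b i n J
    Q S L (1 / σ) (e * L) B1 (1 / L ^ (3 * J)) hPar hctx (by rw [← he]; exact hJ1) le_rfl
  have key := hEDP η P bb N m W b i n J Q S L (1 / σ) (e * L) B1 (1 / L ^ (3 * J)) G0 (3 * L) D
    hPar hη hcore hL200 hctx
    (by rw [← hT]; exact hT0) hD0 (by positivity)
    (by
      intro x hx
      unfold lw
      by_cases hpos : 1 ≤ b + W * x + i * m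
      · have := IP.EDQ.log_le (by linarith) hm hL hb (by rw [← hn]; exact hx) hiL hpos
        linarith
      · have h0 : b + W * x + i * m = 0 := by omega
        rw [h0]
        simp
        positivity)
    (by
      rw [← hM, ← hV1, ← hT]
      have h1 := IP.EDQ.num_h1 (J := J) hVK0 hC₀ hC3 hη hVK hL0 ha1 he0 hlamb0 hB1 hI2 hI3 e5
      rw [← hD] at h1
      have h0 : 0 ≤ 2 * (V1 * S.card) * ((4 * (J : ℝ) / Real.exp (η * L)) ^ 2 +
          Real.exp ((2 * (1 / σ) * (V1 * S.card) - (e * L - B1)) / B1)) := by positivity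
      calc 3 * L * M * V1 * (2 * (V1 * S.card)) * ((4 * (J : ℝ) / Real.exp (η * L)) ^ 2 +
          Real.exp ((2 * (1 / σ) * (V1 * S.card) - (e * L - B1)) / B1)) =
            (3 * L * M * V1) * (2 * (V1 * S.card) * ((4 * (J : ℝ) / Real.exp (η * L)) ^ 2 +
          Real.exp ((2 * (1 / σ) * (V1 * S.card) - (e * L - B1)) / B1))) := by ring
        _ ≤ (D * T) * (2 * (V1 * S.card) * ((4 * (J : ℝ) / Real.exp (η * L)) ^ 2 +
          Real.exp ((2 * (1 / σ) * (V1 * S.card) - (e * L - B1)) / B1))) :=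
            mul_le_mul_of_nonneg_right hΛMV h0
        _ = T * (D * (2 * (V1 * S.card) * ((4 * (J : ℝ) / Real.exp (η * L)) ^ 2 +
          Real.exp ((2 * (1 / σ) * (V1 * S.card) - (e * L - B1)) / B1)))) := by ring
        _ ≤ T * (1 / 16) := mul_le_mul_of_nonneg_left h1 hT0.le
        _ = T / 16 := by ring)
    (by
      rw [← hM, ← hT]
      exact IP.EDQ.big16 hT0 (by positivity) hΛM hh2)
    (by
      rw [← hM]
      exact IP.EDQ.big8 hL1 hS0 (by positivity) hh2)
    (by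
      rw [← hM, ← hT]
      exact IP.EDQ.big16 hT0 (by positivity) hΛM hh3)
    (IP.EDQ.big8 hL1 hS0 (by positivity) hh3)
    (by
      rw [← hM]
      refine hh4.trans ?_
      rw [hSS]
      exact hVSL' 1 hJ3)
    (by
      rw [← hT]
      exact EDQU.num_h5 e1 htW htWle hWL hT1')
    (by
      rw [← hM, ← hV1, ← hT]
      exact hΛMV)
    hG01
    (by
      intro k hk x hx
      rw [Om, mem_filter, mem_range] at hx
      rw [hQ]
      refine (hG0 m k (b + W * x) (Real.exp (η * L)) (Real.exp B1) hz2 hzR).trans ?_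
      rw [hG0d, Real.log_exp, hlogz]
      have h1 : B1 / (η * L) = e / lamb / η := by
        rw [hB1]
        field_simp
      rw [h1]
      apply mul_le_mul_of_nonneg_right _ (by positivity)
      apply pow_le_pow_right₀ (by norm_num)
      have hnn : 1 ≤ b + W * x + k * m := by
        by_contra h
        have h0 : b + W * x = 0 := by omega
        have h2 := hx.2
        rw [h0, Nat.coprime_zero_left] at h2
        rw [h2] at hexp
        have h3 : Real.exp L ≤ 1 := by rw [hexp]; simp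
        rw [Real.exp_le_one_iff] at h3
        linarith
      have h2 := few_dvd (Q := BPr m (Real.exp (η * L)) (Real.exp B1)) (z := Real.exp (η * L))
        (by linarith)
        (fun l hl => ⟨(mem_BPr hexpB1 hl).1, (mem_BPr hexpB1 hl).2.1⟩) hnn
      rw [hlogz] at h2
      have h3 := IP.EDQ.log_le (by linarith) hm hL hb (by rw [← hn]; exact hx.1) (hSk k hk) hnn
      have h4 : (((BPr m (Real.exp (η * L)) (Real.exp B1)).filter
          (fun l => l ∣ b + W * x + k * m)).card : ℝ) ≤ 2 / η := by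
        rw [le_div_iff₀ hη]
        have h5 : (((BPr m (Real.exp (η * L)) (Real.exp B1)).filter
          (fun l => l ∣ b + W * x + k * m)).card : ℝ) * η * L ≤ 2 * L := by
          calc _ = (((BPr m (Real.exp (η * L)) (Real.exp B1)).filter
              (fun l => l ∣ b + W * x + k * m)).card : ℝ) * (η * L) := by ring
            _ ≤ _ := h2.trans h3
        exact le_of_mul_le_mul_right h5 hL0
      have h5 : (((BPr m (Real.exp (η * L)) (Real.exp B1)).filter
          (fun l => l ∣ b + W * x + k * m)).card : ℝ) ≤ (E : ℝ) := by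
        rw [hE, hE2]
        exact h4.trans (Nat.le_ceil _)
      exact_mod_cast h5)
  rw [← hV1, ← hT] at key
  have hsub : Gd P N m W b i n Q S ⊆ (Pi m W b i n).filter (fun x => ∀ k ∈ S,
      ∃ l : ℕ, l.Prime ∧ (l : ℝ) ≤ Real.exp (L / 100) ∧ l ∣ (b + W * x) + k * m) := by
    intro x hx
    rw [Gd, mem_filter] at hx
    rw [mem_filter]
    refine ⟨hx.1, fun k hk => ?_⟩
    obtain ⟨l, hl, hdvd⟩ := hx.2 k hk
    rw [mem_union] at hl
    rcases hl with hl | hl
    · obtain ⟨g1, g2, g3, g4⟩ := hSSm l hl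
      refine ⟨l, g1, g4.trans ?_, hdvd⟩
      apply Real.exp_le_exp.2
      have h3 : η ≤ 1 / 100 := by
        refine hηe.trans ?_
        rw [he]
        norm_num
      calc η * L ≤ 1 / 100 * L := mul_le_mul_of_nonneg_right h3 hL0.le
        _ = L / 100 := by ring
    · obtain ⟨g1, g2, g3, g4⟩ := hQm l hl
      refine ⟨l, g1, g4.trans ?_, hdvd⟩
      apply Real.exp_le_exp.2
      have h3 : e ≤ 1 / 100 := by
        rw [he]
        norm_num
      rw [hB1]
      calc e * L / lamb ≤ e * L := div_le_self (by positivity) hlamb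
        _ ≤ 1 / 100 * L := mul_le_mul_of_nonneg_right h3 hL0.le
        _ = L / 100 := by ring
  have hlw : ∀ x, 0 ≤ lw m W b i x := fun x => Real.log_natCast_nonneg _
  have h1 : 1 / (16 * (D * C4 G0 J (C₀ / η))) * T ≤
      T / (16 * (D * C4 G0 J (S.card * V1))) := by
    rw [one_div_mul_eq_div]
    have hG00 : 0 < G0 := by linarith
    have h2 : C4 G0 J (S.card * V1) ≤ C4 G0 J (C₀ / η) := by
      unfold C4
      gcongr
    have h3 : 0 < C4 G0 J (S.card * V1) := by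
      unfold C4
      positivity
    gcongr
  have h0 : Real.exp (-Real.exp ((9 * κ₀ + 4 * C₁ + 48 * C3 + 62) * C₀)) * T ≤
      1 / (16 * (D * C4 G0 J (C₀ / η))) * T := by
    apply mul_le_mul_of_nonneg_right _ hT0.le
    rw [Real.exp_neg, ← one_div]
    exact one_div_le_one_div_of_le (by positivity) hfinal
  refine h0.trans (h1.trans (key.trans ?_))
  exact Finset.sum_le_sum_of_subset_of_nonneg hsub fun x _ _ => hlw x

end

end UIP
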