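import Mathlib
import Pool.Agent.UIP.St
import Pool.Agent.UNI.BLKU

set_option autoImplicit false

/-!
BLHU: the dyadic blocks of the small primes above the hundredth power of `L`, uniform.
-/

namespace UIP

open Finset Pool.Agent.Lib_helper9.LG IP

noncomputable section

theorem t_BLHU : S_BLHU := by
  obtain ⟨L₀, hL₀⟩ := Pool.Agent.UNI.blkU
  refine ⟨max 1 L₀, fun L hL η hη b₀ m hm => ?_⟩
  have hL1 : 1 ≤ L := (le_max_left _ _).trans hL
  obtain ⟨P, N, hd, hS, hs, hv⟩ := hL₀ L ((le_max_right _ _).trans hL) η hη b₀ m hm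
  refine ⟨fun j => (P j).filter (fun l => L ^ 100 < (l : ℝ)), N, ?_, ?_, ?_, ?_⟩
  · intro i hi j hj hij
    exact (hd i hi j hj hij).mono (filter_subset _ _) (filter_subset _ _)
  · ext l
    have h1 : l ∈ SS P N ↔ l ∈ SPr m L (Real.exp (η * L)) := by rw [hS]
    have h4 : L ^ 4 ≤ L ^ 100 := pow_le_pow_right₀ hL1 (by norm_num)
    simp only [SS, SPr, SPH, mem_biUnion, mem_range, mem_filter, mem_Icc] at h1 ⊢
    constructor
    · rintro ⟨j, hj, hl, hl2⟩
      obtain ⟨h5, h6, h7, h8⟩ := h1.1 ⟨j, hj, hl⟩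
      exact ⟨h5, h6, hl2, h8⟩
    · rintro ⟨h5, h6, h7, h8⟩
      obtain ⟨j, hj, hl⟩ := h1.2 ⟨h5, h6, h4.trans_lt h7, h8⟩
      exact ⟨j, hj, hl, h7⟩
  · intro j hj
    refine le_trans (Finset.sum_le_sum_of_subset_of_nonneg (filter_subset _ _) ?_) (hs j hj)
    intro l _ _
    positivity
  · refine le_trans ?_ hv
    unfold LV
    refine Finset.prod_le_prod (fun j _ => by positivity) (fun j _ => ?_)
    refine pow_le_pow_left₀ (by positivity) ?_ _
    have h0 : ∀ l ∈ P j, l ∉ (P j).filter (fun l : ℕ => L ^ 100 < (l : ℝ)) → 0 ≤ (l : ℝ) :=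
      fun l _ _ => Nat.cast_nonneg l
    have := Finset.sum_le_sum_of_subset_of_nonneg
      (filter_subset (fun l : ℕ => L ^ 100 < (l : ℝ)) (P j)) h0
    linarith

end

end UIP
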