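import Pool.Agent.UIP.St
import Pool.Agent.IP.KVH

set_option autoImplicit false

/-!
Module KVHU: the expected number of rough sites, uniform in `t`, `η`, `A`.
-/

namespace UIP

open Finset Filter Pool.Agent.Lib_helper9.LG IP

noncomputable section

namespace KVHU

open Pool.Agent.Lib_helper9.LG.KVBd hiding VS_eq few

/-- Few prime factors of `m` above `L ^ 100`. -/
lemma few (A : ℕ) (L : ℝ) (hL1 : 1 ≤ L) (hLA : 4 * (A : ℝ) ≤ L) (m : ℕ) (hm : 1 ≤ m)
    (hlm : Real.log m ≤ A * L) (z : ℝ) :
    VS (SPH m L z) 1 ≤ 2 * ∏ p ∈ pyz (L ^ 100) z, ff p := by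
  classical
  rw [KVH.VS_eq]
  have e := prod_filter_mul_prod_filter_not (pyz (L ^ 100) z) (fun p => p ∣ m) ff
  rw [← e]
  set Q := (pyz (L ^ 100) z).filter (fun p => p ∣ m) with hQ
  have hQm : Q ⊆ m.primeFactors := by
    intro p hp
    rw [hQ, mem_filter] at hp
    exact Nat.mem_primeFactors.2 ⟨pyz_prime p hp.1, hp.2, by omega⟩
  have hcard : (Q.card : ℝ) * (1 / 2) ≤ A * L := by
    have h1 := RH.card_primeFactors_le m hm
    have h2 : (Q.card : ℝ) ≤ m.primeFactors.card := by exact_mod_cast card_le_card hQm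
    have h3 : (1 : ℝ) / 2 ≤ Real.log 2 := by
      have := Real.log_two_gt_d9
      linarith
    have h4 : (0 : ℝ) ≤ Q.card := Nat.cast_nonneg _
    nlinarith
  have hsum : ∑ p ∈ Q, 1 / (p : ℝ) ≤ 1 / 2 := by
    have h1 : ∀ p ∈ Q, 1 / (p : ℝ) ≤ 1 / L ^ 4 := by
      intro p hp
      rw [hQ, mem_filter] at hp
      have h2 := (mem_filter.1 hp.1).2.2
      have h3 : L ^ 4 ≤ L ^ 100 := pow_le_pow_right₀ hL1 (by norm_num)
      exact one_div_le_one_div_of_le (by positivity) (h3.trans h2.le)
    have h2 := sum_le_card_nsmul Q _ _ h1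
    rw [nsmul_eq_mul] at h2
    refine h2.trans ?_
    rw [mul_one_div, div_le_iff₀ (by positivity)]
    have h3 : L ^ 4 = L * L * (L * L) := by ring
    have h5 : (1 : ℝ) ≤ L * L := by nlinarith
    have h6 : L * L ≤ L * L * (L * L) := by nlinarith
    rw [h3]
    nlinarith
  have hlow : 1 / 2 ≤ ∏ p ∈ Q, ff p := by
    have h1 := RH.one_sub_sum_le (S := Q) (f := fun p => 1 / (p : ℝ))
      (fun l _ => by positivity) (fun l hl => by
        have := (Nat.prime_of_mem_primeFactors (hQm hl)).one_lt.le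
        rw [div_le_one (by exact_mod_cast (by omega : 0 < l))]
        exact_mod_cast this)
    have h2 : ∏ p ∈ Q, ff p = ∏ p ∈ Q, (1 - 1 / (p : ℝ)) := rfl
    rw [h2]
    linarith
  have hnn : 0 ≤ ∏ p ∈ (pyz (L ^ 100) z).filter (fun p => ¬ p ∣ m), ff p :=
    prod_nonneg fun p hp => (ff_pos (pyz_prime p (mem_filter.1 hp).1)).1.le
  nlinarith

end KVHU

open Pool.Agent.Lib_helper9.LG.KVBd hiding VS_eq few

theorem t_KVHU : S_KVHU := by
  obtain ⟨c, C, hc, hC, hM⟩ := mert
  -- `log L / L` is small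
  have hlog : ∀ᶠ L : ℝ in atTop, 400 * (C / c) * Real.log L ≤ L := by
    have h1 := Real.isLittleO_log_id_atTop
    have h2 := h1.def (c := 1 / (400 * (C / c) + 1)) (by positivity)
    filter_upwards [h2, eventually_ge_atTop (1 : ℝ)] with L hL hL1
    rw [Real.norm_eq_abs, abs_of_nonneg (Real.log_nonneg hL1), id, Real.norm_eq_abs,
      abs_of_nonneg (by linarith)] at hL
    have h3 : 400 * (C / c) * Real.log L ≤ (400 * (C / c) + 1) * Real.log L := by
      nlinarith [Real.log_nonneg hL1]
    have h4 : (400 * (C / c) + 1) * Real.log L ≤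
        (400 * (C / c) + 1) * (1 / (400 * (C / c) + 1) * L) :=
      mul_le_mul_of_nonneg_left hL (by positivity)
    have h5 : (400 * (C / c) + 1) * (1 / (400 * (C / c) + 1) * L) = L := by
      field_simp
    linarith
  obtain ⟨L₂, hL₂⟩ := hlog.exists_forall_of_atTop
  refine ⟨400 * C ^ 2 / c + 1, by positivity, max L₂ 16,
    fun L hL t η ht1 hη hx A hA m hm hlm K hK => ?_⟩
  have hLb : L₂ ≤ L := (le_max_left _ _).trans hL
  have hLc : 16 ≤ L := (le_max_right _ _).trans hL
  have ht : 0 < t := by linarith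
  have hl : 400 * (C / c) * Real.log L ≤ t * L := by
    have h1 := hL₂ L hLb
    have h2 : L ≤ t * L := le_mul_of_one_le_left (by linarith) ht1
    linarith
  have hL0 : 0 < L := by linarith
  have hlL : 0 < Real.log L := Real.log_pos (by linarith)
  have hLL4 : L ≤ L ^ 100 := by
    calc L = L ^ 1 := (pow_one L).symm
      _ ≤ L ^ 100 := pow_le_pow_right₀ (by linarith) (by norm_num)
  have hL4 : 4 ≤ L ^ 100 := by linarith
  have hsq4 : 4 ≤ Real.sqrt L := by
    rw [show (4 : ℝ) = Real.sqrt 16 by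
      rw [show (16 : ℝ) = 4 ^ 2 by norm_num, Real.sqrt_sq (by norm_num)]]
    exact Real.sqrt_le_sqrt hLc
  have hsqL : Real.sqrt L ≤ L := by
    rw [Real.sqrt_le_left hL0.le]
    nlinarith
  -- the product over the primes between L ^ 100 and exp (η L)
  set z := Real.exp (η * L) with hz
  have hz4 : 4 ≤ z := hL4.trans hx
  have hlz : Real.log z = η * L := Real.log_exp _
  set P1 := ∏ p ∈ pz (Real.sqrt L), ff p with hP1
  set P2 := ∏ p ∈ pyz (L ^ 100) z, ff p with hP2
  have hP1u : P1 ≤ 2 * C / Real.log L := by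
    have h1 := (hM _ hsq4).2
    rw [Real.log_sqrt hL0.le] at h1
    calc P1 ≤ C / (Real.log L / 2) := h1
      _ = 2 * C / Real.log L := by field_simp
  have hP2u : P2 ≤ 100 * (C / c) * Real.log L / (η * L) := by
    have h1 := prod_pyz (y := L ^ 100) (z := z) (by positivity) hx
    have h2 := (hM _ hL4).1
    have h3 := (hM _ hz4).2
    rw [hlz] at h3
    rw [Real.log_pow] at h2
    push_cast at h2
    have h4 : c / (100 * Real.log L) * P2 ≤ C / (η * L) := by
      refine le_trans ?_ h3
      rw [← h1]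
      refine mul_le_mul_of_nonneg_right h2 ?_
      exact prod_nonneg fun p hp => (ff_pos (pyz_prime p hp)).1.le
    have h5 : P2 = (100 * Real.log L / c) * (c / (100 * Real.log L) * P2) := by
      field_simp
    rw [h5]
    calc (100 * Real.log L / c) * (c / (100 * Real.log L) * P2)
        ≤ (100 * Real.log L / c) * (C / (η * L)) :=
          mul_le_mul_of_nonneg_left h4 (by positivity)
      _ = 100 * (C / c) * Real.log L / (η * L) := by
          field_simp
  have hP1n : 0 ≤ P1 := prod_nonneg fun p hp => (ff_pos (pz_prime p hp)).1.le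
  have hP2n : 0 ≤ P2 := prod_nonneg fun p hp => (ff_pos (pyz_prime p hp)).1.le
  have hPP : P1 * P2 ≤ 200 * (C ^ 2 / c) / (η * L) := by
    calc P1 * P2 ≤ (2 * C / Real.log L) * (100 * (C / c) * Real.log L / (η * L)) :=
          mul_le_mul hP1u hP2u hP2n (by positivity)
      _ = 200 * (C ^ 2 / c) / (η * L) := by
          field_simp
          ring
  have hdis : Disjoint (pz (Real.sqrt L)) (pyz (L ^ 100) z) := by
    rw [disjoint_left]
    intro p h1 h2
    have h3 : (p : ℝ) ≤ Real.sqrt L :=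
      (Nat.le_floor_iff (Real.sqrt_nonneg _)).1 (mem_Icc.1 (mem_filter.1 h1).1).2
    have h4 := (mem_filter.1 h2).2.2
    linarith
  have hcomb := comb m hm _ _ pz_prime pyz_prime hdis
  rw [← KVH.VS_eq, ← WW_eq, ← tot m (by omega)] at hcomb
  have hVS := KVHU.few A L (by linarith) hA m hm hlm z
  set F := (m.totient : ℝ) / m with hF
  set G := ((WW m L).totient : ℝ) / (WW m L) with hG
  set V := VS (SPH m L z) 1 with hV
  have hG0 : 0 ≤ G := by positivity
  have hG1 : G ≤ 1 := by
    rw [hG, WW_eq]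
    exact prod_le_one (fun p hp => (ff_pos (pz_prime p (mem_filter.1 hp).1)).1.le)
      (fun p hp => (ff_pos (pz_prime p (mem_filter.1 hp).1)).2)
  have hV0 : 0 ≤ V := by
    rw [hV, KVH.VS_eq]
    exact prod_nonneg fun p hp => (ff_pos (pyz_prime p (mem_filter.1 hp).1)).1.le
  have hVt : 2 * V ≤ t / η := by
    calc 2 * V ≤ 2 * (2 * P2) := by linarith
      _ ≤ 2 * (2 * (100 * (C / c) * Real.log L / (η * L))) := by linarith
      _ = (400 * (C / c) * Real.log L) / (η * L) := by ring
      _ ≤ (t * L) / (η * L) := div_le_div_of_nonneg_right hl (by positivity)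
      _ = t / η := by field_simp
  have hGV : 0 ≤ G * V := mul_nonneg hG0 hV0
  have hFGV : F * G * V ≤ 200 * (C ^ 2 / c) / (η * L) := hcomb.trans hPP
  have hGV1 : G * V ≤ V := by nlinarith
  calc 2 * (K : ℝ) * G * V = 2 * (K * (G * V)) := by ring
    _ ≤ 2 * ((t * F * L + 1) * (G * V)) := by
        have := mul_le_mul_of_nonneg_right hK hGV
        linarith
    _ = 2 * (t * L) * (F * G * V) + 2 * (G * V) := by ring
    _ ≤ 2 * (t * L) * (200 * (C ^ 2 / c) / (η * L)) + t / η := by
        have h1 : 2 * (t * L) * (F * G * V) ≤ 2 * (t * L) * (200 * (C ^ 2 / c) / (η * L)) :=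
          mul_le_mul_of_nonneg_left hFGV (by positivity)
        linarith
    _ = (400 * C ^ 2 / c + 1) * t / η := by
        field_simp
        ring

end

end UIP
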