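import Pool.Agent.UIP.St

set_option autoImplicit false

/-!
Module LARG: the numerical facts for large `L`, uniform in `η`, `J`.
-/

namespace UIP

open Finset Filter Pool.Agent.Lib_helper9.LG Pool.Agent.UNI

noncomputable section

namespace LARG

/-- `log L` is small. -/
theorem log_small : ∃ L₀ : ℝ, ∀ L : ℝ, L₀ ≤ L → 10 ^ 6 ≤ L ∧ 200 * Real.log L ≤ Real.sqrt L := by
  have h1 := Real.isLittleO_log_id_atTop
  have h2 := h1.def (c := 1 / 400) (by norm_num)
  have h3 : ∀ᶠ x : ℝ in atTop, Real.log x ≤ x / 400 := by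
    filter_upwards [h2, eventually_ge_atTop (1 : ℝ)] with x hx hx1
    rw [Real.norm_eq_abs, abs_of_nonneg (Real.log_nonneg hx1), id, Real.norm_eq_abs,
      abs_of_nonneg (by linarith)] at hx
    linarith
  have h4 : ∀ᶠ L : ℝ in atTop, Real.log (Real.sqrt L) ≤ Real.sqrt L / 400 :=
    Real.tendsto_sqrt_atTop.eventually h3
  obtain ⟨L₀, hL₀⟩ := (h4.and (eventually_ge_atTop (10 ^ 6 : ℝ))).exists_forall_of_atTop
  refine ⟨L₀, fun L hL => ?_⟩
  obtain ⟨g1, g2⟩ := hL₀ L hL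
  rw [Real.log_sqrt (le_trans (by norm_num) g2)] at g1
  exact ⟨g2, by linarith⟩

end LARG

theorem t_LARG : S_LARG := by
  obtain ⟨L₀, hL₀⟩ := LARG.log_small
  refine ⟨L₀, fun L hLL η D J hη hη1 h8 hJ hD => ?_⟩
  obtain ⟨hL, hlog⟩ := hL₀ L hLL
  have hL' : (1000000 : ℝ) ≤ L := by norm_num at hL; linarith
  have hL0 : 0 < L := by linarith
  have hL1 : 1 ≤ L := by linarith
  obtain ⟨a1, a2, a3, a4⟩ := eta_facts hη hη1 hL1 h8
  have hs : 1000 ≤ Real.sqrt L := Real.le_sqrt_of_sq_le (by norm_num; linarith)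
  have hss : Real.sqrt L * Real.sqrt L = L := Real.mul_self_sqrt hL0.le
  have hlogL : 0 ≤ Real.log L := Real.log_nonneg hL1
  have hJ0 : (0 : ℝ) ≤ J := Nat.cast_nonneg J
  have hJs : (J : ℝ) ≤ Real.sqrt L := by
    have h1 : (J : ℝ) ≤ 1 / η := by rwa [le_div_iff₀ hη]
    exact h1.trans a1
  have hJL : 16 * (J : ℝ) + 16 ≤ L := by nlinarith
  have hexp : ∀ n : ℕ, (n : ℝ) * Real.log L ≤ η * L → L ^ n ≤ Real.exp (η * L) := by
    intro n hn
    calc L ^ n = Real.exp ((n : ℝ) * Real.log L) := by rw [Real.exp_nat_mul, Real.exp_log hL0]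
      _ ≤ _ := Real.exp_le_exp.2 hn
  have hexp2 : ∀ n : ℕ, (n : ℝ) * Real.log L ≤ 1 / 2 * L → L ^ n ≤ Real.exp (1 / 2 * L) := by
    intro n hn
    calc L ^ n = Real.exp ((n : ℝ) * Real.log L) := by rw [Real.exp_nat_mul, Real.exp_log hL0]
      _ ≤ _ := Real.exp_le_exp.2 hn
  have h100 : L ^ 100 ≤ Real.exp (η * L) := by
    apply hexp
    push_cast
    linarith
  have hJexp : L ^ (3 * J + 9) ≤ Real.exp (η * L) := by
    apply hexp
    push_cast
    have h1 : (3 * (J : ℝ) + 9) * η ≤ 12 := by nlinarith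
    have h2 : (3 * (J : ℝ) + 9) * Real.log L * η ≤ 12 * Real.log L := by
      calc (3 * (J : ℝ) + 9) * Real.log L * η = ((3 * (J : ℝ) + 9) * η) * Real.log L := by ring
        _ ≤ _ := mul_le_mul_of_nonneg_right h1 hlogL
    have h3 : (3 * (J : ℝ) + 9) * Real.log L * η ≤ (η * L) * η := by
      refine h2.trans ?_
      have h4 : 12 * Real.log L ≤ Real.sqrt L := by linarith
      refine h4.trans (a2.trans (le_of_eq ?_))
      ring
    exact le_of_mul_le_mul_right h3 hη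
  have hJexp2 : L ^ (15 * J + 1) ≤ Real.exp (1 / 2 * L) := by
    apply hexp2
    push_cast
    have h1 : (15 * (J : ℝ) + 1) * η ≤ 16 := by nlinarith
    have h2 : (15 * (J : ℝ) + 1) * Real.log L * η ≤ 16 * Real.log L := by
      calc (15 * (J : ℝ) + 1) * Real.log L * η = ((15 * (J : ℝ) + 1) * η) * Real.log L := by ring
        _ ≤ _ := mul_le_mul_of_nonneg_right h1 hlogL
    have h3 : (15 * (J : ℝ) + 1) * Real.log L * η ≤ (1 / 2 * L) * η := by
      refine h2.trans ?_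
      have h4 : 16 * Real.log L ≤ 1 / 2 * Real.sqrt L := by linarith
      refine h4.trans ?_
      have h5 : 1 / 2 * L * η = 1 / 2 * (η * L) := by ring
      rw [h5]
      linarith
    exact le_of_mul_le_mul_right h3 hη
  have hkey : ∀ a x : ℝ, a ≤ Real.exp x → a * Real.exp (-x) ≤ 1 := by
    intro a x h
    rw [Real.exp_neg, ← div_eq_mul_inv, div_le_one (Real.exp_pos _)]
    exact h
  have hL2 : 1 ≤ L ^ 2 := one_le_pow₀ hL1
  have p23 : L ^ 2 + 2 ≤ L ^ 3 := by nlinarith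
  have p2 : L ^ 2 + 1 ≤ L ^ 3 := by linarith
  have pw : ∀ i j : ℕ, i ≤ j → L ^ i ≤ L ^ j := fun i j h => pow_le_pow_right₀ hL1 h
  refine ⟨hL, hJL, h100, ?_, ?_, ?_, ?_, ?_⟩
  · apply hkey
    refine le_trans ?_ h100
    have h1 : 2 * ((J : ℝ) + 1) ≤ L := by linarith
    calc 2 * ((J : ℝ) + 1) * (L ^ 2 + 1) ≤ L * L ^ 3 :=
          mul_le_mul h1 p2 (by positivity) hL0.le
      _ = L ^ 4 := by ring
      _ ≤ L ^ 100 := pw 4 100 (by norm_num)
  · apply hkey
    exact hD.trans ((pw 4 100 (by norm_num)).trans h100)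
  · apply hkey
    have h1 : L ^ 5 ≤ Real.exp (1 / 2 * L) := by
      apply hexp2
      push_cast
      have h4 : Real.sqrt L ≤ L := by nlinarith
      linarith
    refine le_trans ?_ h1
    calc 6912 * L * (L ^ 2 + 2) ≤ L * L * L ^ 3 :=
          mul_le_mul (mul_le_mul_of_nonneg_right (by linarith) hL0.le) p23 (by positivity)
            (by positivity)
      _ = L ^ 5 := by ring
  · apply hkey
    refine le_trans ?_ hJexp
    have h1 : 3072 * (J : ℝ) ≤ L ^ 2 := by nlinarith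
    have h0 : 3072 * (J : ℝ) * L ≤ L ^ 3 := by
      calc 3072 * (J : ℝ) * L ≤ L ^ 2 * L := mul_le_mul_of_nonneg_right h1 hL0.le
        _ = L ^ 3 := by ring
    have h2 : 3072 * (J : ℝ) * L * (L ^ 2 + 2) ≤ L ^ 3 * L ^ 3 :=
      mul_le_mul h0 p23 (by positivity) (by positivity)
    have h3 : 3072 * (J : ℝ) * L * (L ^ 2 + 2) * (L ^ 2 + 1) ≤ L ^ 3 * L ^ 3 * L ^ 3 :=
      mul_le_mul h2 p2 (by positivity) (by positivity)
    calc 3072 * (J : ℝ) * L * (L ^ 2 + 2) * (L ^ 2 + 1) * L ^ (3 * J) ≤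
          L ^ 3 * L ^ 3 * L ^ 3 * L ^ (3 * J) :=
          mul_le_mul_of_nonneg_right h3 (by positivity)
      _ = L ^ (3 * J + 9) := by rw [← pow_add, ← pow_add, ← pow_add]; congr 1; ring
  · apply hkey
    refine le_trans ?_ hJexp2
    have h1 : (L ^ 2 + 2) ^ (4 * J) ≤ L ^ (12 * J) := by
      calc (L ^ 2 + 2) ^ (4 * J) ≤ (L ^ 3) ^ (4 * J) := pow_le_pow_left₀ (by positivity) p23 _
        _ = L ^ (12 * J) := by rw [← pow_mul]; congr 1; ring
    have h2 : 2 * (L ^ 2 + 2) ^ (4 * J) ≤ L * L ^ (12 * J) :=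
      mul_le_mul (by linarith) h1 (by positivity) hL0.le
    calc 2 * (L ^ 2 + 2) ^ (4 * J) * L ^ (3 * J) ≤ L * L ^ (12 * J) * L ^ (3 * J) :=
          mul_le_mul_of_nonneg_right h2 (by positivity)
      _ = L ^ (15 * J + 1) := by
          rw [mul_assoc, ← pow_add, ← pow_succ']
          congr 1
          ring

end

end UIP
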