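import Pool.Agent.UIP.St

set_option autoImplicit false

/-!
Module PARH: the choice of the parameters, uniform in `C₀`.
-/

namespace UIP

open Finset Filter

noncomputable section

theorem t_PARH : S_PARH := by
  intro c e C' hc he hC'
  -- `I ≤ k₁ C₀`
  obtain ⟨k₁, hk₁⟩ : ∃ k₁ : ℝ, k₁ = (8 / e + 2) / c + 2 := ⟨_, rfl⟩
  have hk₁0 : 0 < k₁ := by rw [hk₁]; positivity
  obtain ⟨k₀, hk₀⟩ : ∃ k₀ : ℝ, k₀ = |Real.log C'| + 1 := ⟨_, rfl⟩
  have hk₀0 : 1 ≤ k₀ := by rw [hk₀]; linarith [abs_nonneg (Real.log C')]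
  -- the choice of `k₂`
  have hlim : Tendsto (fun x : ℝ => (2 * x + (2 * k₁ + k₀ + 3)) * Real.exp (-x)) atTop
      (nhds 0) := by
    have h1 : Tendsto (fun x : ℝ => 2 * (x ^ 1 * Real.exp (-x))) atTop (nhds (2 * 0)) :=
      (Real.tendsto_pow_mul_exp_neg_atTop_nhds_zero 1).const_mul _
    have h2 : Tendsto (fun x : ℝ => (2 * k₁ + k₀ + 3) * Real.exp (-x)) atTop
        (nhds ((2 * k₁ + k₀ + 3) * 0)) :=
      (Real.tendsto_exp_neg_atTop_nhds_zero).const_mul _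
    have h3 := h1.add h2
    simp only [pow_one, mul_zero, add_zero] at h3
    refine h3.congr fun x => ?_
    ring
  have hev : ∀ᶠ x : ℝ in atTop, (2 * x + (2 * k₁ + k₀ + 3)) * Real.exp (-x) ≤ e / 2 :=
    hlim.eventually_le_const (by positivity)
  obtain ⟨k₂, ⟨hk₂, hk₂1⟩, hk₂0⟩ :=
    ((hev.and (eventually_ge_atTop (1 : ℝ))).and (eventually_ge_atTop k₀)).exists
  obtain ⟨κ, hκ⟩ : ∃ κ : ℝ, κ = k₁ + (k₂ + 1) := ⟨_, rfl⟩
  refine ⟨κ, by linarith, fun C₀ hC₀ => ?_⟩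
  have hC₀0 : 0 < C₀ := by linarith
  obtain ⟨η, hη⟩ : ∃ η : ℝ, η = Real.exp (-(κ * C₀)) := ⟨_, rfl⟩
  have hη0 : 0 < η := by rw [hη]; exact Real.exp_pos _
  have hlogη : Real.log η = -(κ * C₀) := by rw [hη, Real.log_exp]
  obtain ⟨u, hu⟩ : ∃ u : ℝ, u = η ^ 2 / (C' * C₀) := ⟨_, rfl⟩
  have hu0 : 0 < u := by rw [hu]; positivity
  have hlogu : Real.log u = -(2 * κ * C₀) - Real.log (C' * C₀) := by
    rw [hu, Real.log_div (by positivity) (by positivity), Real.log_pow, hlogη]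
    push_cast
    ring
  have hlCC : Real.log (C' * C₀) = Real.log C' + Real.log C₀ :=
    Real.log_mul hC'.ne' hC₀0.ne'
  have hlog0 : 0 ≤ Real.log C₀ := Real.log_nonneg hC₀
  have hlog1 : Real.log C₀ ≤ C₀ - 1 := Real.log_le_sub_one_of_pos hC₀0
  have hab := abs_nonneg (Real.log C')
  have hle : Real.log (C' * C₀) ≤ k₀ * C₀ := by
    have h1 := le_abs_self (Real.log C')
    have h2 : |Real.log C'| ≤ |Real.log C'| * C₀ := le_mul_of_one_le_right hab hC₀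
    rw [hlCC, hk₀]
    linarith
  have hge : -(k₀ * C₀) ≤ Real.log (C' * C₀) := by
    have h1 := neg_abs_le (Real.log C')
    have h2 : |Real.log C'| ≤ |Real.log C'| * C₀ := le_mul_of_one_le_right hab hC₀
    rw [hlCC, hk₀]
    linarith
  have hκ0 : 0 < κ := by linarith
  have hκk : k₀ * C₀ ≤ 2 * κ * C₀ := mul_le_mul_of_nonneg_right (by linarith) hC₀0.le
  obtain ⟨lamb, hlamb⟩ : ∃ lamb : ℝ, lamb = 4 / 3 * (1 - Real.log u) := ⟨_, rfl⟩
  have hlamb1 : 1 ≤ lamb := by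
    rw [hlamb, hlogu]
    linarith
  have hlamb2 : lamb ≤ 2 * ((2 * κ + k₀ + 1) * C₀) := by
    rw [hlamb, hlogu]
    have h1 : 0 ≤ κ * C₀ := by positivity
    have h2 : 0 ≤ k₀ * C₀ := by positivity
    nlinarith
  obtain ⟨I, hI⟩ : ∃ I : ℕ, I = ⌈(8 * C₀ / e + 2) / c⌉₊ + 1 := ⟨_, rfl⟩
  have hI1 : 1 ≤ I := by omega
  have hI2 : 8 * C₀ / e + 2 ≤ c * I := by
    have h1 := Nat.le_ceil ((8 * C₀ / e + 2) / c)
    rw [div_le_iff₀ hc] at h1
    rw [hI]
    push_cast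
    nlinarith
  have hI3 : (I : ℝ) ≤ k₁ * C₀ := by
    have h1 : (⌈(8 * C₀ / e + 2) / c⌉₊ : ℝ) < (8 * C₀ / e + 2) / c + 1 :=
      Nat.ceil_lt_add_one (by positivity)
    have h2 : (8 * C₀ / e + 2) / c ≤ (8 / e + 2) / c * C₀ := by
      rw [div_mul_eq_mul_div]
      apply div_le_div_of_nonneg_right _ hc.le
      have h3 : (8 / e + 2) * C₀ = 8 * C₀ / e + 2 * C₀ := by ring
      rw [h3]
      linarith
    rw [hI]
    push_cast
    rw [hk₁]
    nlinarith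
  have h2I : (2 : ℝ) ^ I ≤ Real.exp (k₁ * C₀) := by
    have h1 : (2 : ℝ) ^ I ≤ Real.exp 1 ^ I := by
      apply pow_le_pow_left₀ (by norm_num)
      have := Real.add_one_le_exp (1 : ℝ)
      linarith
    refine h1.trans ?_
    rw [← Real.exp_nat_mul, mul_one]
    exact Real.exp_le_exp.2 hI3
  -- the main estimate
  have hmain : 2 ^ I * (η * lamb) ≤ e := by
    have h1 : 2 ^ I * (η * lamb) ≤
        Real.exp (k₁ * C₀) * (η * (2 * ((2 * κ + k₀ + 1) * C₀))) := by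
      apply mul_le_mul h2I _ (by positivity) (Real.exp_nonneg _)
      exact mul_le_mul_of_nonneg_left hlamb2 hη0.le
    refine h1.trans ?_
    have h2 : Real.exp (k₁ * C₀) * (η * (2 * ((2 * κ + k₀ + 1) * C₀))) =
        (2 * (2 * κ + k₀ + 1)) * (C₀ * Real.exp (-C₀)) * Real.exp (-(k₂ * C₀)) := by
      have h3 : η = Real.exp (-(k₁ * C₀)) * Real.exp (-C₀) * Real.exp (-(k₂ * C₀)) := by
        rw [hη, ← Real.exp_add, ← Real.exp_add]
        congr 1
        rw [hκ]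
        ring
      rw [h3]
      have h4 : Real.exp (k₁ * C₀) * Real.exp (-(k₁ * C₀)) = 1 := by
        rw [← Real.exp_add]
        simp
      calc _ = (Real.exp (k₁ * C₀) * Real.exp (-(k₁ * C₀))) *
            ((2 * (2 * κ + k₀ + 1)) * (C₀ * Real.exp (-C₀)) * Real.exp (-(k₂ * C₀))) := by ring
        _ = _ := by rw [h4, one_mul]
    rw [h2]
    have h3 : C₀ * Real.exp (-C₀) ≤ 1 := by
      rw [Real.exp_neg, ← div_eq_mul_inv, div_le_one (Real.exp_pos _)]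
      have := Real.add_one_le_exp C₀
      linarith
    have h4 : Real.exp (-(k₂ * C₀)) ≤ Real.exp (-k₂) := by
      apply Real.exp_le_exp.2
      nlinarith
    have h5 : (2 * (2 * κ + k₀ + 1)) * (C₀ * Real.exp (-C₀)) ≤ 2 * (2 * κ + k₀ + 1) := by
      have h6 : 0 ≤ 2 * (2 * κ + k₀ + 1) := by linarith
      nlinarith
    calc (2 * (2 * κ + k₀ + 1)) * (C₀ * Real.exp (-C₀)) * Real.exp (-(k₂ * C₀)) ≤
          (2 * (2 * κ + k₀ + 1)) * Real.exp (-k₂) := by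
          apply mul_le_mul h5 h4 (Real.exp_nonneg _) (by linarith)
      _ = 2 * ((2 * k₂ + (2 * k₁ + k₀ + 3)) * Real.exp (-k₂)) := by rw [hκ]; ring
      _ ≤ 2 * (e / 2) := by linarith
      _ = e := by ring
  have hηe : η ≤ e := by
    refine le_trans ?_ hmain
    have h1 : (1 : ℝ) ≤ 2 ^ I := one_le_pow₀ (by norm_num)
    have h2 : η ≤ η * lamb := le_mul_of_one_le_right hη0.le hlamb1
    have h3 : 0 ≤ η * lamb := by positivity
    exact h2.trans (le_mul_of_one_le_left h3 h1)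
  refine ⟨η, lamb, I, hη.ge, hηe, hlamb1, hmain, by linarith, ?_, hI1⟩
  have h7 : 1 - 3 / 4 * lamb = Real.log u := by rw [hlamb]; ring
  rw [h7, Real.exp_log hu0, hu]

end

end UIP
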