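import Pool.Agent.UIP.St
import Pool.Agent.IP.VSH
import Pool.Agent.UNI.VSLU

set_option autoImplicit false

/-!
VSHU: lower bound for the densities, uniform (helper20).
-/

namespace UIP

open Finset Pool.Agent.Lib_helper9.LG IP

theorem t_VSHU : S_VSHU := by
  obtain ⟨c, hc, h⟩ := Pool.Agent.UNI.vslU
  refine ⟨c, hc, fun η hη J L hL1 hLη hLc hLJ2 hL2 m hm j hj => ?_⟩
  have hJ0 : (0 : ℝ) ≤ J := Nat.cast_nonneg _
  have hLJ : (J : ℝ) ≤ L := by linarith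
  refine (h η hη J L hL1 hLη hLc hLJ2 hL2 m hm j hj).trans ?_
  have hsub := VSH.sub (m := m) (z := Real.exp (η * L)) hL1
  unfold VS
  rw [← Finset.prod_sdiff hsub]
  have h1 : ∏ l ∈ SPr m L (Real.exp (η * L)) \ SPH m L (Real.exp (η * L)), (1 - (j : ℝ) / l) ≤ 1 :=
    Finset.prod_le_one (fun p hp => (VSH.fac hL1 hLJ hj (mem_sdiff.1 hp).1).1)
      (fun p hp => (VSH.fac hL1 hLJ hj (mem_sdiff.1 hp).1).2)
  have h2 : 0 ≤ ∏ l ∈ SPH m L (Real.exp (η * L)), (1 - (j : ℝ) / l) :=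
    Finset.prod_nonneg fun p hp => (VSH.fac hL1 hLJ hj (hsub hp)).1
  exact mul_le_of_le_one_left h2 h1

end UIP
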