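import Pool.Agent.UIP.St
import Pool.Agent.IP.EDP
import Pool.Agent.IP.CRL
import Pool.Agent.IP.CRU
import Pool.Agent.IP.MOF

set_option autoImplicit false
set_option linter.unusedSectionVars false
set_option linter.unusedSimpArgs false
set_option linter.unusedVariables false

/-!
EDPU: the engine for one class, over the primes, with the core inequality (copy of IP/EDP.lean, helper83).
-/

namespace UIP

open Finset Pool.Agent.Lib_helper9.LG IP IP.EDP

noncomputable section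

namespace EDPU

section eng

variable {P : ℕ → Finset ℕ} {bb : ℕ → ℕ} {N m W b i n J : ℕ} {Q S : Finset ℕ}
  {z a B B1 VJ : ℝ}

open Classical in
/-- the final computation -/
theorem final (hMOF : S_MOF) (hCRL : S_CRL) (hCRU : S_CRU) {η L G0 Λ D : ℝ}
    (hP : Par η P bb N m W b i n Q S L a B B1)
    (hLPG : LPh P bb N m W b i n J Q S L a B B1) (hL : 200 ≤ L)
    (h : Ctx P bb N m W b i n J Q S z a B B1 VJ)
    (hT : 0 < Th m W b i n) (hD : 0 < D) (hΛ : 0 ≤ Λ) (hw : ∀ x < n, lw m W b i x ≤ Λ)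
    (h1 : Λ * MM m n * VS (SS P N) 1 * (2 * (VS (SS P N) 1 * S.card)) *
      ((4 * J / z) ^ 2 +
        Real.exp ((2 * a * (VS (SS P N) 1 * S.card) - (B - B1)) / B1)) ≤ Th m W b i n / 16)
    (h2 : Λ * MM m n * (((S.card : ℝ) + 1) *
      ((2 ^ m.primeFactors.card * LV P bb N ^ 2 / MM m n) *
        (Real.exp (3 * B) * 3) ^ 2)) ≤ Th m W b i n / 16)
    (h2' : (2 ^ m.primeFactors.card * LV P bb N ^ 2 / MM m n) *
      (Real.exp (3 * B) * 3) ^ 2 ≤ 1 / 8)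
    (h3 : Λ * MM m n * (((S.card : ℝ) + 1) *
      (2 * (4 * J * S.card / z) / VJ)) ≤ Th m W b i n / 16)
    (h3' : 2 * (4 * J * S.card / z) / VJ ≤ 1 / 8)
    (h4 : ((S.card : ℝ) + 1) ^ (4 * J) * (2 ^ m.primeFactors.card * LV P bb N ^ 4 / MM m n) ≤
      VS (SS P N) 1)
    (h5 : Real.exp L / (W.totient * L ^ 20) + Real.exp (99 / 100 * L) ≤ Th m W b i n / 8)
    (h6 : Λ * MM m n * VS (SS P N) 1 ≤ D * Th m W b i n)
    (hG0 : 1 ≤ G0)
    (hG : ∀ k ∈ S, ∀ x ∈ Om m W b n, ∏ l ∈ Q, (1 + |xx m l k (b + W * x)|) ≤ G0) :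
    Th m W b i n / (16 * (D * C4 G0 J (S.card * VS (SS P N) 1))) ≤
      ∑ x ∈ Gd P N m W b i n Q S, lw m W b i x := by
  have hz0 : 0 < z := by have := h.cfg.hz; linarith
  unfold LPh at hLPG
  obtain ⟨T, hTd⟩ : ∃ T : ℝ, T = Th m W b i n := ⟨_, rfl⟩
  obtain ⟨V1, hV1d⟩ : ∃ V1 : ℝ, V1 = VS (SS P N) 1 := ⟨_, rfl⟩
  obtain ⟨K, hKd⟩ : ∃ K : ℝ, K = (S.card : ℝ) := ⟨_, rfl⟩
  obtain ⟨M, hMd⟩ : ∃ M : ℝ, M = MM m n := ⟨_, rfl⟩
  obtain ⟨C, hCd⟩ : ∃ C : ℝ, C = C4 G0 J (K * V1) := ⟨_, rfl⟩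
  have hV1 := V1_pos h h4
  have hV11 := V1_le_one h.sv
  have hM0 : 0 < M := hMd ▸ MM_pos h.hm h.hn
  have hK0 : 0 ≤ K := hKd ▸ Nat.cast_nonneg _
  have hC0 : 0 < C := by
    rw [hCd]
    unfold C4
    have : 0 < Real.exp (15 * (K * V1)) := Real.exp_pos _
    positivity
  have hm1 : (m : ℝ) = Real.exp L := by
    rw [hP.hL, Real.exp_log]
    exact_mod_cast h.hm
  have hlm : ∀ l ∈ SS P N, l ≤ m := by
    intro l hl
    have a1 := SS_le_LV (P := P) (bb := bb) (N := N) (fun j hj => by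
      have := h.sv.hb j hj
      omega) hl
    have a2 : Real.exp (L / 1000) ≤ Real.exp L := Real.exp_le_exp.2 (by linarith)
    have a3 : (l : ℝ) ≤ m := by
      rw [hm1]
      exact (a1.trans hP.hLV).trans a2
    exact_mod_cast a3
  have hpr : ∀ l ∈ SS P N, l.Prime := fun l hl => (h.sv.hS1 l hl).1
  have hPO : Pi m W b i n ⊆ Om m W b n := Pi_sub h.hm hP.hi
  have hwP : ∀ x ∈ Pi m W b i n, lw m W b i x ≤ Λ := by
    intro x hx
    unfold Pi at hx
    rw [mem_filter, mem_range] at hx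
    exact hw x hx.1
  -- the second moment
  obtain ⟨hZ1, hlow⟩ := lower hCRL h
  obtain ⟨Z, hZd⟩ : ∃ Z : ℝ, Z = ZZ P N J Q S a B B1 := ⟨_, rfl⟩
  obtain ⟨e, hed⟩ : ∃ e : ℝ, e = (2 ^ m.primeFactors.card * LV P bb N ^ 2 / MM m n) *
      (Real.exp (3 * B) * 3) ^ 2 := ⟨_, rfl⟩
  obtain ⟨e3, he3d⟩ : ∃ e3 : ℝ, e3 = 2 * (4 * J * S.card / z) / VJ := ⟨_, rfl⟩
  obtain ⟨s, hsd⟩ : ∃ s : ℝ, s = (4 * J / z) ^ 2 +
        Real.exp ((2 * a * (VS (SS P N) 1 * S.card) - (B - B1)) / B1) := ⟨_, rfl⟩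
  have he0 : 0 ≤ e := by
    rw [hed, ← hMd]
    positivity
  have he30 : 0 ≤ e3 := by
    rw [he3d]
    have := h.hVJ
    positivity
  rw [← hZd] at hZ1 hlow
  rw [← hed] at hlow h2 h2'
  rw [← he3d] at hlow h3 h3'
  rw [← hsd] at h1
  rw [← hMd, ← hTd, ← hKd] at h2 h3
  rw [← hMd, ← hTd, ← hKd, ← hV1d] at h1
  obtain ⟨m2, hm2⟩ : ∃ m2 : ℝ, m2 = mn m W b n (fun x => Gf P bb N m W b Q S a B B1 x ^ 2) :=
    ⟨_, rfl⟩
  obtain ⟨m4, hm4⟩ : ∃ m4 : ℝ, m4 = mn m W b n (fun x => Gf P bb N m W b Q S a B B1 x ^ 4) :=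
    ⟨_, rfl⟩
  rw [← hm2] at hlow hLPG
  rw [← hTd, ← hZd] at hLPG
  have hlow' : 3 / 4 * Z ≤ m2 := by
    have : Z * e3 ≤ Z * (1 / 8) := mul_le_mul_of_nonneg_left h3' (by linarith)
    nlinarith
  -- the fourth moment
  have hmom := momStmt P bb N m W b n J S h.hm h.hW h.hn h.hWm h.sv.hd
    (fun l hl => ⟨(h.sv.hS1 l hl).1, (h.sv.hS1 l hl).2.1, (h.sv.hS1 l hl).2.2.1, by
      have := (h.sv.hS1 l hl).2.2.2
      omega⟩) (fun k hk => h.sv.hkS k (mem_insert_of_mem hk)) h.sv.hsum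
    (by
      intro j hj
      have := h.sv.hb j hj
      omega)
  have hmof := hMOF P bb N m W b n J i S h.hm h.hW h.hn h.hWm h.sv.hd h.sv.hS1 h.sv.hiS
    h.sv.hkS h.sv.hsum h.sv.hb
  have hm4le : m4 ≤ C := by
    rw [hm4, hCd]
    unfold mn C4
    have a1 := four h id hG0 hG
    have a2 : (∑ x ∈ Om m W b n, Gf P bb N m W b Q S a B B1 x ^ 4) / M ≤
        ((G0 ^ J) ^ 4 * ∑ x ∈ Om m W b n,
      (∑ A ∈ S.powerset.filter (fun A => A.card ≤ J), Lm P bb N m (id A) (b + W * x)) ^ 4) / M :=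
      div_le_div_of_nonneg_right a1 hM0.le
    have a3 : (∑ x ∈ Om m W b n,
      (∑ A ∈ S.powerset.filter (fun A => A.card ≤ J), Lm P bb N m (id A) (b + W * x)) ^ 4) / M ≤
      2 * Real.exp (15 * (K * V1)) + 1 := by
      rw [hMd, hKd, hV1d]
      exact hmom.trans (by
        have : ((S.card : ℝ) + 1) ^ (4 * J) * (2 ^ m.primeFactors.card * LV P bb N ^ 4 /
          ((n : ℝ) * ((m.totient : ℝ) / m))) ≤ VS (SS P N) 1 := h4
        linarith)
    rw [mul_div_assoc] at a2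
    have a4 : (∑ x ∈ Om m W b n, Gf P bb N m W b Q S a B B1 x ^ 4) / M ≤
        (G0 ^ J) ^ 4 * (2 * Real.exp (15 * (K * V1)) + 1) :=
      a2.trans (mul_le_mul_of_nonneg_left a3 (by positivity))
    rw [hMd] at a4
    exact a4
  have hGi4 : ∑ x ∈ Om m W b n, Gi P bb N m W b i Q S a B B1 x ^ 4 ≤ M * (V1 * C) := by
    have a1 := four h (fun A => insert i A) hG0 hG
    have a3 : (∑ x ∈ Om m W b n, (∑ A ∈ S.powerset.filter (fun A => A.card ≤ J),
        Lm P bb N m (insert i A) (b + W * x)) ^ 4) / M ≤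
        V1 * (2 * Real.exp (15 * (K * V1)) + 1) := by
      rw [hMd, hKd, hV1d]
      exact hmof.trans (by
        have : ((S.card : ℝ) + 1) ^ (4 * J) * (2 ^ m.primeFactors.card * LV P bb N ^ 4 /
          ((n : ℝ) * ((m.totient : ℝ) / m))) ≤ VS (SS P N) 1 := h4
        linarith)
    rw [div_le_iff₀ hM0] at a3
    calc ∑ x ∈ Om m W b n, Gi P bb N m W b i Q S a B B1 x ^ 4
        ≤ (G0 ^ J) ^ 4 * ∑ x ∈ Om m W b n, (∑ A ∈ S.powerset.filter (fun A => A.card ≤ J),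
          Lm P bb N m (insert i A) (b + W * x)) ^ 4 := a1
      _ ≤ (G0 ^ J) ^ 4 * (V1 * (2 * Real.exp (15 * (K * V1)) + 1) * M) :=
          mul_le_mul_of_nonneg_left a3 (by positivity)
      _ = M * (V1 * C) := by
          rw [hCd]
          unfold C4
          ring
  -- the second moment over the primes
  have hT0' : 0 < T := by rw [hTd]; exact hT
  have hA : 3 / 4 * Z * T - T / 8 * Z ≤
      ∑ x ∈ Pi m W b i n, lw m W b i x * Gf P bb N m W b Q S a B B1 x ^ 2 := by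
    have a1 := (abs_le.1 hLPG).1
    have a3 : (Real.exp L / (W.totient * L ^ 20) + Real.exp (99 / 100 * L)) * Z ≤ T / 8 * Z := by
      apply mul_le_mul_of_nonneg_right _ (by linarith)
      rw [hTd]
      exact h5
    have a4 : T * (3 / 4 * Z) ≤ T * m2 := mul_le_mul_of_nonneg_left hlow' hT0'.le
    linarith
  -- the bad part
  have hbad : ∑ x ∈ (Pi m W b i n).filter (fun x => ¬ ∀ k ∈ S, ∃ l ∈ SS P N ∪ Q,
      l ∣ (b + W * x) + k * m), lw m W b i x * Gf P bb N m W b Q S a B B1 x ^ 2 ≤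
      3 / 16 * (T * Z) := by
    have a1 := upper hCRU h hV1
    rw [← hsd, ← hed, ← he3d, ← hZd, ← hMd, ← hV1d, ← hKd, div_le_iff₀ hM0] at a1
    have a2 := arith1 hΛ hM0.le hK0 hZ1 (by rw [hTd]; exact hT.le) he30 he0 h1 h2 h3
    refine le_trans ?_ a2
    have a3 : ∑ x ∈ (Pi m W b i n).filter (fun x => ¬ ∀ k ∈ S, ∃ l ∈ SS P N ∪ Q,
        l ∣ (b + W * x) + k * m), lw m W b i x * Gf P bb N m W b Q S a B B1 x ^ 2 =
        ∑ x ∈ (Pi m W b i n).filter (fun x => ¬ ∀ k ∈ S, ∃ l ∈ SS P N ∪ Q,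
        l ∣ (b + W * x) + k * m), lw m W b i x * Gi P bb N m W b i Q S a B B1 x ^ 2 := by
      apply Finset.sum_congr rfl
      intro x hx
      rw [Gf_eq h.hm hP.hi hpr hlm (mem_filter.1 hx).1]
    rw [a3]
    have a4 : (Pi m W b i n).filter (fun x => ¬ ∀ k ∈ S, ∃ l ∈ SS P N ∪ Q,
        l ∣ (b + W * x) + k * m) ⊆
        (Om m W b n).filter (fun x => ∃ k : {k // k ∈ S}, (∀ j : {l // l ∈ Q},
        xf m W b Q S j k x = 1 / qa Q j) ∧ ∀ A : Finset {k // k ∈ S},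
          Lm P bb N m (insert i (em S (insert k A))) (b + W * x) =
            Lm P bb N m (insert i (em S A)) (b + W * x)) := by
      intro x hx
      rw [mem_filter] at hx ⊢
      obtain ⟨hx1, hx2⟩ := hx
      refine ⟨hPO hx1, ?_⟩
      push Not at hx2
      obtain ⟨k, hk, hk2⟩ := hx2
      refine ⟨⟨k, hk⟩, ?_, ?_⟩
      · intro j
        have a5 := hk2 j (mem_union_right _ j.2)
        show xx m j k (b + W * x) = 1 / (((j : ℕ) : ℝ) - 1)
        unfold xx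
        rw [if_neg a5]
      · intro A
        rw [em_insert, insert_comm]
        apply NNd.nn.2.2.2.2.2.2
        intro l hl
        exact hk2 l (mem_union_left _ hl)
    refine (sum_lw_le a4 hΛ (fun x hx => hwP x (mem_filter.1 hx).1) _
      (fun x => sq_nonneg _)).trans ?_
    refine mul_le_mul_of_nonneg_left ?_ hΛ
    rw [mul_comm M]
    exact a1
  -- the good part
  have hgood : 7 / 16 * T ≤
      ∑ x ∈ Gd P N m W b i n Q S, lw m W b i x * Gf P bb N m W b Q S a B B1 x ^ 2 := by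
    have a1 := Finset.sum_filter_add_sum_filter_not (Pi m W b i n)
      (fun x => ∀ k ∈ S, ∃ l ∈ SS P N ∪ Q, l ∣ (b + W * x) + k * m)
      (fun x => lw m W b i x * Gf P bb N m W b Q S a B B1 x ^ 2)
    have a2 : ∑ x ∈ Gd P N m W b i n Q S, lw m W b i x * Gf P bb N m W b Q S a B B1 x ^ 2 =
        ∑ x ∈ (Pi m W b i n).filter (fun x => ∀ k ∈ S, ∃ l ∈ SS P N ∪ Q,
          l ∣ (b + W * x) + k * m), lw m W b i x * Gf P bb N m W b Q S a B B1 x ^ 2 := by
      unfold Gd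
      apply Finset.sum_congr _ fun _ _ => rfl
      congr
    rw [a2]
    have hTZ : T ≤ T * Z := le_mul_of_one_le_right hT0'.le hZ1
    have a5 : 7 / 16 * (T * Z) = 3 / 4 * Z * T - T / 8 * Z - 3 / 16 * (T * Z) := by ring
    linarith
  have hfour : ∑ x ∈ Gd P N m W b i n Q S, lw m W b i x * Gf P bb N m W b Q S a B B1 x ^ 4 ≤
      D * T * C := by
    have a1 : ∑ x ∈ Gd P N m W b i n Q S, lw m W b i x * Gf P bb N m W b Q S a B B1 x ^ 4 =
        ∑ x ∈ Gd P N m W b i n Q S, lw m W b i x * Gi P bb N m W b i Q S a B B1 x ^ 4 := by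
      apply Finset.sum_congr rfl
      intro x hx
      rw [Gf_eq h.hm hP.hi hpr hlm (mem_filter.1 hx).1]
    rw [a1]
    have a2 := sum_lw_le (A := Gd P N m W b i n Q S) (R := Om m W b n) (i := i)
      ((filter_subset _ _).trans hPO) hΛ (fun x hx => hwP x (mem_filter.1 hx).1)
      (fun x => Gi P bb N m W b i Q S a B B1 x ^ 4) (fun x => Even.pow_nonneg (by decide) _)
    refine a2.trans ?_
    refine (mul_le_mul_of_nonneg_left hGi4 hΛ).trans ?_
    have a3 : Λ * M * V1 ≤ D * T := by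
      rw [hMd, hV1d, hTd]
      exact h6
    calc Λ * (M * (V1 * C)) = Λ * M * V1 * C := by ring
      _ ≤ D * T * C := mul_le_mul_of_nonneg_right a3 hC0.le
  have hcs := cs (A := Gd P N m W b i n Q S) (lw m W b i) (Gf P bb N m W b Q S a B B1)
    (fun x _ => lw_nonneg m W b i x)
  obtain ⟨X, hX⟩ : ∃ X : ℝ, X = ∑ x ∈ Gd P N m W b i n Q S, lw m W b i x := ⟨_, rfl⟩
  rw [← hX] at hcs ⊢
  have hX0 : 0 ≤ X := by
    rw [hX]
    exact Finset.sum_nonneg fun x _ => lw_nonneg m W b i x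
  have hT0 : 0 < T := by rw [hTd]; exact hT
  have b1 : (7 / 16 * T) ^ 2 ≤ X * (D * T * C) :=
    ((pow_le_pow_left₀ (by positivity) hgood 2).trans hcs).trans
      (mul_le_mul_of_nonneg_left hfour hX0)
  rw [← hTd, ← hKd, ← hV1d, ← hCd, div_le_iff₀ (by positivity)]
  have b2 : T * (49 / 256 * T) ≤ T * (X * (D * C)) := by nlinarith
  have b3 : 49 / 256 * T ≤ X * (D * C) := le_of_mul_le_mul_left b2 hT0
  linarith

end eng

end EDPU

/-- **The module.** -/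
theorem t_EDPU : S_EDPU := by
  intro η P bb N m W b i n J Q S L a B B1 VJ G0 Λ D hP hη hLPG hL hC hT hD hΛ hw h1 h2 h2' h3 h3'
    h4 h5 h6 hG0 hG
  exact EDPU.final IP.t_MOF IP.t_CRL IP.t_CRU hP hLPG hL hC hT hD hΛ hw h1 h2 h2' h3 h3' h4 h5 h6
    hG0 hG

end

end UIP
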