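import Pool.Agent.UIP.St
import Pool.Agent.IP.FIN

set_option autoImplicit false

/-!
UIP, module FINU: the theorem.
-/

namespace UIP

open Finset Pool.Agent.Lib_helper9.LG IP IP.FIN

noncomputable section

/-- the asymptotic conditions, uniform -/
theorem asymU (c : ℝ) (hc : 0 < c) : ∃ L1 : ℝ, ∀ L : ℝ, L1 ≤ L → 100 ≤ L ∧
    Real.sqrt L ≤ Real.exp (L / 100) ∧ ∀ b : ℝ, 0 ≤ b → b ≤ L →
    (b * L + 1) * (Real.exp (L / 100) + 1) * L ≤ c * Real.exp (-Real.sqrt L) * Real.exp L := by
  have h2 := isLittleO_pow_exp_pos_mul_atTop (k := 3) (b := 89 / 100) (by norm_num)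
  have h4 := h2.bound (c := c / 4) (by positivity)
  obtain ⟨L2, hL2⟩ := asym 1 1 1 one_pos one_pos
  obtain ⟨L1, hL1⟩ := Filter.eventually_atTop.1 h4
  refine ⟨max (max L1 L2) 100, fun L hL => ?_⟩
  have g1 : L1 ≤ L := (le_max_left _ _).trans ((le_max_left _ _).trans hL)
  have g2 : L2 ≤ L := (le_max_right _ _).trans ((le_max_left _ _).trans hL)
  have g3 : 100 ≤ L := (le_max_right _ _).trans hL
  have hL0 : 0 ≤ L := by linarith
  refine ⟨g3, (hL2 L g2).2.2.2.1, fun b hb hbL => ?_⟩
  have h10 := hL1 L g1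
  rw [Real.norm_of_nonneg (by positivity), Real.norm_of_nonneg (Real.exp_pos _).le] at h10
  have h11 : (1 : ℝ) ≤ Real.exp (L / 100) := Real.one_le_exp (by linarith)
  have h12 : (b * L + 1) * (Real.exp (L / 100) + 1) * L ≤ 4 * L ^ 3 * Real.exp (L / 100) := by
    have h13 : b * L + 1 ≤ 2 * L ^ 2 := by
      have h0 : b * L ≤ L * L := mul_le_mul_of_nonneg_right hbL hL0
      have h00 : 1 * 1 ≤ L * L := mul_le_mul (by linarith) (by linarith) zero_le_one hL0
      linarith
    have h14 : Real.exp (L / 100) + 1 ≤ 2 * Real.exp (L / 100) := by linarith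
    have h15 : (b * L + 1) * (Real.exp (L / 100) + 1) ≤ (2 * L ^ 2) * (2 * Real.exp (L / 100)) :=
      mul_le_mul h13 h14 (by positivity) (by positivity)
    refine (mul_le_mul_of_nonneg_right h15 hL0).trans (le_of_eq ?_)
    ring
  have h16 : Real.sqrt L ≤ L / 10 := by
    rw [Real.sqrt_le_left (by linarith)]
    have h0 : 100 * L ≤ L * L := mul_le_mul_of_nonneg_right g3 hL0
    linarith
  have h17 : Real.exp (89 / 100 * L) * Real.exp (L / 100) ≤
      Real.exp (-Real.sqrt L) * Real.exp L := by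
    rw [← Real.exp_add, ← Real.exp_add]
    apply Real.exp_le_exp.2
    linarith
  refine h12.trans ?_
  have h18 : 4 * L ^ 3 * Real.exp (L / 100) ≤
      c * (Real.exp (89 / 100 * L) * Real.exp (L / 100)) := by
    have h19 : 4 * L ^ 3 ≤ c * Real.exp (89 / 100 * L) := by linarith
    rw [← mul_assoc]
    exact mul_le_mul_of_nonneg_right h19 (Real.exp_pos _).le
  refine h18.trans ?_
  rw [mul_assoc]
  exact mul_le_mul_of_nonneg_left h17 hc.le

theorem t_FINU : M_FINU := by
  intro hEDQ hSEL hKVH hTOT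
  classical
  obtain ⟨C1, hC1, c1, hc1, hSEL⟩ := hSEL
  obtain ⟨C, hC, L₀, hKVH⟩ := hKVH
  obtain ⟨κ, hκ, m1, hEDQ⟩ := hEDQ
  set κ' : ℝ := κ * (C1 * C + 1) with hκ'
  have hκ'1 : 1 ≤ κ' := by
    have h1 : 0 < C1 * C := mul_pos hC1 hC
    exact one_le_mul_of_one_le_of_one_le hκ (by linarith)
  set Cs : ℝ := κ' + |Real.log (96 / c1)| with hCs
  have hCs1 : 1 ≤ Cs := by
    have := abs_nonneg (Real.log (96 / c1))
    linarith
  have hCsk : κ' ≤ Cs := by
    have := abs_nonneg (Real.log (96 / c1))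
    linarith
  refine ⟨1 / (2 * Cs), Cs, by positivity, by linarith, ?_, fun ε hε => ?_⟩
  · rw [div_mul_eq_mul_div, one_mul, div_le_div_iff₀ (by linarith) (by norm_num)]
    linarith
  obtain ⟨m2, hSEL⟩ := hSEL (ε / 2) (by positivity)
  obtain ⟨m3, hTOT⟩ := hTOT (4 / ε + 1)
  obtain ⟨L1, hL1⟩ := asymU (c1 * ε ^ 2 / 96) (by positivity)
  refine ⟨max (max m1 m2) (max m3 (⌈Real.exp (max L₀ L1)⌉₊ + 1)),
    fun m hm t a b ht1 htc ha hab hεb hbt => ?_⟩
  have hm1 : m1 ≤ m := le_trans (le_trans (le_max_left _ _) (le_max_left _ _)) hm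
  have hm2 : m2 ≤ m := le_trans (le_trans (le_max_right _ _) (le_max_left _ _)) hm
  have hm3 : m3 ≤ m := le_trans (le_trans (le_max_left _ _) (le_max_right _ _)) hm
  have hm4 : ⌈Real.exp (max L₀ L1)⌉₊ + 1 ≤ m :=
    le_trans (le_trans (le_max_right _ _) (le_max_right _ _)) hm
  have hm5 : 1 ≤ m := by omega
  have hmR : (0 : ℝ) < m := by exact_mod_cast hm5
  have hm6 : Real.exp (max L₀ L1) ≤ m := by
    have h1 : ((⌈Real.exp (max L₀ L1)⌉₊ : ℕ) : ℝ) ≤ m := by
      exact_mod_cast (show ⌈Real.exp (max L₀ L1)⌉₊ ≤ m by omega)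
    exact (Nat.le_ceil _).trans h1
  have hm7 : max L₀ L1 ≤ Real.log m := (Real.le_log_iff_exp_le hmR).2 hm6
  set L := Real.log m with hL
  have hL0 : L₀ ≤ L := (le_max_left _ _).trans hm7
  obtain ⟨l100, l4, l5u⟩ := hL1 L ((le_max_right _ _).trans hm7)
  have l1 : 1 ≤ L := by linarith
  have hLpos : 0 < L := by linarith
  have ht : 0 < t := by linarith
  have hb : 0 < b := by linarith
  have hau0 : a ≤ b := by
    have := mul_pos hε hb
    linarith
  have hba : ε * b ≤ b - a := by linarith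
  have hlogL : 0 ≤ Real.log L := Real.log_nonneg l1
  -- the bounds of `t`
  have hCt : Cs * t ≤ 1 / 2 * Real.log L := by
    have h1 := mul_le_mul_of_nonneg_left htc (show 0 ≤ Cs by linarith)
    refine h1.trans (le_of_eq ?_)
    field_simp
  have hkt : κ' * t ≤ 1 / 2 * Real.log L :=
    (mul_le_mul_of_nonneg_right hCsk ht.le).trans hCt
  have htL' : t ≤ 1 / 2 * Real.log L := by
    have h1 : 1 * t ≤ κ' * t := mul_le_mul_of_nonneg_right hκ'1 ht.le
    linarith
  have htlog : t ≤ Real.log L := by linarith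
  have hlogle : Real.log L ≤ L := by
    have := Real.log_le_sub_one_of_pos hLpos
    linarith
  have l3 : t ≤ L := by linarith
  have l2 : b ≤ L := by linarith
  -- the parameters of the engine
  have hC0 : 1 ≤ (C1 * C + 1) * t := by
    have h1 : 0 < C1 * C := mul_pos hC1 hC
    exact one_le_mul_of_one_le_of_one_le (by linarith) ht1
  obtain ⟨η, hη, hηL, hEDQ⟩ := hEDQ m hm1 ((C1 * C + 1) * t) hC0 (by
    have h1 : κ * ((C1 * C + 1) * t) = κ' * t := by rw [hκ']; ring
    rw [h1]
    linarith)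
  set δ : ℝ := Real.exp (-Real.exp (κ' * t)) with hδdef
  have hδ : 0 < δ := Real.exp_pos _
  have hκe : Real.exp (-Real.exp (κ * ((C1 * C + 1) * t))) = δ := by
    rw [hδdef, hκ']
    congr 3
    ring
  have hδL : Real.exp (-Real.sqrt L) ≤ δ := by
    rw [hδdef]
    apply Real.exp_le_exp.2
    have h1 : Real.exp (κ' * t) ≤ Real.sqrt L := by
      have h2 : Real.exp (1 / 2 * Real.log L) = Real.sqrt L := by
        rw [Real.sqrt_eq_rpow, Real.rpow_def_of_pos hLpos]
        congr 1
        ring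
      rw [← h2]
      exact Real.exp_le_exp.2 hkt
    linarith
  set u := (a + b) / 2 with hudef
  have huε : ε / 2 ≤ u := by
    rw [hudef]
    linarith
  have hu : 0 < u := by linarith
  have hub : u < b := by
    rw [hudef]
    have : 0 < ε * b := mul_pos hε hb
    linarith
  have hau : a ≤ u := by
    rw [hudef]
    linarith
  have hbu : 0 < b - u := sub_pos.2 hub
  set δ₁ : ℝ := c1 * (b - u) with hδ₁def
  have hδ₁ : 0 < δ₁ := mul_pos hc1 hbu
  have hδ₁ε : c1 * ε ^ 2 / 2 ≤ δ₁ := by
    rw [hδ₁def, hudef]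
    have h1 : ε * ε ≤ ε * b := mul_le_mul_of_nonneg_left hεb hε.le
    have h2 : ε ^ 2 / 2 ≤ b - (a + b) / 2 := by linarith
    have h3 := mul_le_mul_of_nonneg_left h2 hc1.le
    linarith
  have l5 : (b * L + 1) * (Real.exp (L / 100) + 1) * L ≤ δ₁ * δ / 48 * Real.exp L := by
    refine (l5u b hb.le l2).trans ?_
    refine mul_le_mul_of_nonneg_right ?_ (Real.exp_pos _).le
    have h1 : c1 * ε ^ 2 / 2 * Real.exp (-Real.sqrt L) ≤ δ₁ * δ :=
      mul_le_mul hδ₁ε hδL (Real.exp_pos _).le hδ₁.le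
    linarith
  have hexp : Real.exp L = m := Real.exp_log hmR
  set W := WW m L with hWdef
  have hW0 : 0 < W := WW_pos m L
  have hWt : 0 < W.totient := Nat.totient_pos.2 hW0
  have hWR : (0 : ℝ) < W := by exact_mod_cast hW0
  have hWtR : (0 : ℝ) < (W.totient : ℝ) := by exact_mod_cast hWt
  set P := ((m.totient : ℝ) / m) * L with hP
  have hPm : P * m = m.totient * L := by
    rw [hP]
    field_simp
  have hP1 : 2 / u + 1 ≤ P := by
    have h1 : 4 / ε + 1 ≤ P := hTOT m hm3
    have h2 : 2 / u ≤ 4 / ε := by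
      rw [div_le_div_iff₀ hu hε]
      linarith
    linarith
  have hu2 : 0 < 2 / u := by positivity
  have hP0 : 0 < P := by linarith
  have huP : 2 ≤ u * P := by
    have h1 : u * (2 / u) ≤ u * P := mul_le_mul_of_nonneg_left (by linarith) hu.le
    rwa [mul_div_cancel₀ _ hu.ne'] at h1
  have hPL : P ≤ L := by
    rw [hP]
    have h1 : (m.totient : ℝ) / m ≤ 1 := by
      rw [div_le_one hmR]
      exact_mod_cast Nat.totient_le m
    have h2 : (m.totient : ℝ) / m * L ≤ 1 * L := mul_le_mul_of_nonneg_right h1 (by linarith)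
    linarith
  set H := ⌊t * P⌋₊ with hH
  have hHle : (H : ℝ) ≤ t * P := Nat.floor_le (by positivity)
  have hsel := hSEL m hm2 u b t huε (by rw [hudef]; linarith) hbt htlog
  -- one good pair
  have hpair : ∀ p ∈ GP m u b C1 H, ∃ G : Finset ℕ,
      (∀ x ∈ G, x < m / W ∧ ((p.2 + W * x) + p.1 * m).Prime ∧
        ∀ k ∈ KK m W p.2 p.1 H, ∃ l : ℕ, l.Prime ∧ (l : ℝ) ≤ Real.exp (L / 100) ∧
          l ∣ (p.2 + W * x) + k * m) ∧
      δ * (m / (8 * W.totient)) ≤ 3 * L * G.card := by
    rintro ⟨i, b'⟩ hp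
    unfold GP at hp
    rw [mem_filter, mem_product, mem_range] at hp
    obtain ⟨⟨hi, hb'⟩, hcop, hTh, hKK⟩ := hp
    change i ∈ II m u b at hi
    change b' < W at hb'
    change (b' + i * m).Coprime W at hcop
    unfold II at hi
    rw [mem_filter, mem_range] at hi
    obtain ⟨hi0, hi1, hi2⟩ := hi
    have hi3 : 2 ≤ i := by
      have h1 : (2 : ℝ) < i := lt_of_le_of_lt huP hi1
      exact_mod_cast h1.le
    have hLsq : ∀ y : ℝ, 0 ≤ y → y ≤ L → y * P ≤ L ^ 2 := by
      intro y hy0 hy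
      rw [pow_two]
      exact mul_le_mul hy hPL hP0.le (by linarith)
    have hi4 : (i : ℝ) ≤ L ^ 2 := by
      have h1 := hLsq b hb.le l2
      linarith
    have h5 : ∀ k ∈ KK m W b' i H, (k : ℝ) ≤ L ^ 2 := by
      intro k hk
      unfold KK at hk
      rw [mem_filter, mem_range] at hk
      have h1 : (k : ℝ) ≤ H := by exact_mod_cast (show k ≤ H by omega)
      have h2 := hLsq t ht.le l3
      linarith
    have h6 : i ∉ KK m W b' i H := by
      intro h
      unfold KK at h
      rw [mem_filter] at h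
      exact h.2.1 rfl
    have h7 : ((KK m W b' i H).card : ℝ) * VS (SPH m L (Real.exp (η * L))) 1 ≤
        C1 * C * t / η := by
      have h8 := hKVH L hL0 t η ht1 hη hηL 1 (by push_cast; linarith) m hm5
        (by rw [Nat.cast_one, one_mul]) (H + 1) (by
        push_cast
        have h9 : t * ((m.totient : ℝ) / m) * L = t * P := by rw [hP]; ring
        rw [h9]
        linarith)
      have h10 := VS_nonneg m L (Real.exp (η * L))
      have h11 : ((KK m W b' i H).card : ℝ) * VS (SPH m L (Real.exp (η * L))) 1 ≤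
          (C1 * (((H : ℝ) + 1) * ((W.totient : ℝ) / W))) *
            VS (SPH m L (Real.exp (η * L))) 1 := mul_le_mul_of_nonneg_right hKK h10
      refine h11.trans ?_
      push_cast at h8
      have h12 : (C1 * (((H : ℝ) + 1) * ((W.totient : ℝ) / W))) *
            VS (SPH m L (Real.exp (η * L))) 1 = C1 / 2 * (2 * ((H : ℝ) + 1) *
            ((W.totient : ℝ) / W) * VS (SPH m L (Real.exp (η * L))) 1) := by ring
      rw [h12]
      have h13 : C1 / 2 * (2 * ((H : ℝ) + 1) *
            ((W.totient : ℝ) / W) * VS (SPH m L (Real.exp (η * L))) 1) ≤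
            C1 / 2 * (C * t / η) := mul_le_mul_of_nonneg_left h8 (by positivity)
      refine h13.trans ?_
      have h14 : 0 ≤ C1 * C * t / η := by positivity
      have h15 : C1 / 2 * (C * t / η) = C1 * C * t / η / 2 := by ring
      rw [h15]
      linarith
    have h7' : ((KK m W b' i H).card : ℝ) * VS (SPH m L (Real.exp (η * L))) 1 ≤
        ((C1 * C + 1) * t) / η := by
      refine h7.trans (div_le_div_of_nonneg_right ?_ hη.le)
      linarith
    have h15' := hEDQ b' i (KK m W b' i H) hb' hcop hi3 hi4 h5 h6 h7' hTh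
    rw [hκe] at h15'
    obtain ⟨G, hGm, h16⟩ := pack h15'
    refine ⟨G, fun x hx => ?_, ?_⟩
    rotate_left
    · refine le_trans (mul_le_mul_of_nonneg_left hTh hδ.le) (h16.trans ?_)
      refine le_trans (Finset.sum_le_card_nsmul _ _ (3 * L) ?_) (le_of_eq ?_)
      · intro x hx
        have hx1 := ((hGm x).1 hx).1
        unfold Pi at hx1
        rw [mem_filter, mem_range] at hx1
        have hcm : b' + W * x < m := by
          have h17 : W * (x + 1) ≤ W * (m / W) := Nat.mul_le_mul_left W hx1.1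
          have h18 : W * (m / W) ≤ m := Nat.mul_div_le m W
          have h19 : W * (x + 1) = W * x + W := by ring
          omega
        unfold lw
        have h20 : ((b' + W * x + i * m : ℕ) : ℝ) ≤ (m : ℝ) ^ 3 := by
          have h21 : ((b' + W * x + i * m : ℕ) : ℝ) ≤ ((i : ℝ) + 1) * m := by
            have h22 : b' + W * x + i * m ≤ (i + 1) * m := by
              have : (i + 1) * m = i * m + m := by ring
              omega
            exact_mod_cast h22
          have h23 : (i : ℝ) + 1 ≤ L ^ 2 := by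
            have h1 := hLsq b hb.le l2
            linarith
          have h24 : L ≤ m := by
            have := Real.log_le_sub_one_of_pos hmR
            rw [← hL] at this
            linarith
          have h25 : L ^ 2 ≤ (m : ℝ) ^ 2 := pow_le_pow_left₀ (by linarith) h24 2
          have h26 : ((i : ℝ) + 1) * m ≤ (m : ℝ) ^ 2 * m :=
            mul_le_mul_of_nonneg_right (h23.trans h25) hmR.le
          refine h21.trans (h26.trans (le_of_eq ?_))
          ring
        have h27 : (0 : ℝ) < ((b' + W * x + i * m : ℕ) : ℝ) := by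
          have : 0 < b' + W * x + i * m := hx1.2.pos
          exact_mod_cast this
        have h28 := Real.log_le_log h27 h20
        rw [Real.log_pow] at h28
        push_cast at h28 ⊢
        exact h28
      · rw [nsmul_eq_mul, mul_comm]
    · have hx1 := ((hGm x).1 hx).1
      unfold Pi at hx1
      rw [mem_filter, mem_range] at hx1
      exact ⟨hx1.1, hx1.2, ((hGm x).1 hx).2⟩
  choose! G hG using hpair
  -- properties of the pairs
  have hGP : ∀ p ∈ GP m u b C1 H, p.2 < W ∧ u * P < p.1 ∧ (p.1 : ℝ) + 1 ≤ b * P ∧ p.1 ≤ H ∧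
      2 ≤ p.1 ∧ p.1 ≤ ⌊b * P⌋₊ := by
    rintro ⟨i, b'⟩ hp
    unfold GP at hp
    rw [mem_filter, mem_product, mem_range] at hp
    obtain ⟨⟨hi, hb'⟩, _⟩ := hp
    change i ∈ II m u b at hi
    change b' < W at hb'
    unfold II at hi
    rw [mem_filter, mem_range] at hi
    obtain ⟨hi0, hi1, hi2⟩ := hi
    have hi3 : 2 ≤ i := by
      have h1 : (2 : ℝ) < i := lt_of_le_of_lt huP hi1
      exact_mod_cast h1.le
    refine ⟨hb', hi1, hi2, Nat.le_floor ?_, hi3, Nat.lt_succ_iff.1 hi0⟩
    have h1 : b * P ≤ t * P := mul_le_mul_of_nonneg_right hbt hP0.le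
    change (i : ℝ) ≤ t * P
    linarith
  have huq : ∀ p ∈ GP m u b C1 H, ∀ x ∈ G p, Real.exp (L / 100) < ((p.2 + W * x : ℕ) : ℝ) →
      ∀ k : ℕ, k ≤ H → ((p.2 + W * x) + k * m).Prime → k = p.1 := by
    intro p hp x hx hc k hk hpr
    refine uniq (m := m) (W := W) (H := H) (fun q hq hqW => ?_) ((hG p hp).1 x hx).2.2 hc hk hpr
    exact (WW_prime hq hqW).trans l4
  have hlt : ∀ p ∈ GP m u b C1 H, ∀ x ∈ G p, p.2 + W * x < m := by
    intro p hp x hx
    have h1 := ((hG p hp).1 x hx).1
    have h2 := (hGP p hp).1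
    have h17 : W * (x + 1) ≤ W * (m / W) := Nat.mul_le_mul_left W h1
    have h18 : W * (m / W) ≤ m := Nat.mul_div_le m W
    have h19 : W * (x + 1) = W * x + W := by ring
    omega
  have hcount := count (R := Real.exp (L / 100)) ((range m).filter (fun c => c.Coprime m ∧
    ∃ q : ℕ, q.Prime ∧ q ≡ c [MOD m] ∧ a * (m.totient * Real.log m) < q ∧
      (q : ℝ) ≤ b * (m.totient * Real.log m) ∧
      ∀ q' : ℕ, q'.Prime → q' ≡ c [MOD m] → (q' : ℝ) ≤ t * (m.totient * Real.log m) →
        q' = q)) (GP m u b C1 H) G hW0 (fun p hp => (hGP p hp).1) ⌊b * P⌋₊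
    (fun p hp => (hGP p hp).2.2.2.2.2) (by
      intro p hp x hx p' hp' x' hx' hc heq
      have h1 := ((hG p' hp').1 x' hx').2.1
      rw [← heq] at h1
      exact (huq p hp x hx hc p'.1 (hGP p' hp').2.2.2.1 h1).symm) (by
      intro p hp x hx hc
      rw [mem_filter, mem_range]
      refine ⟨hlt p hp x hx, ?_⟩
      have h1 := good (c := p.2 + W * x) (u' := a) (v := b) (t := t) hm5 (hlt p hp x hx)
        (hGP p hp).2.2.2.2.1 hau hP0 (hGP p hp).2.1 (hGP p hp).2.2.1 hH
        ((hG p hp).1 x hx).2.1 (huq p hp x hx hc)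
      rw [hPm] at h1
      exact h1)
  -- the number of triples
  have hsum : δ₁ * δ / 24 * (m.totient : ℝ) ≤ ∑ p ∈ GP m u b C1 H, ((G p).card : ℝ) := by
    have h1 : ((GP m u b C1 H).card : ℝ) * (δ * (m / (8 * W.totient))) ≤
        3 * L * ∑ p ∈ GP m u b C1 H, ((G p).card : ℝ) := by
      rw [Finset.mul_sum, ← nsmul_eq_mul]
      exact Finset.card_nsmul_le_sum _ _ _ fun p hp => (hG p hp).2
    have h2 : (δ₁ * (P * W.totient)) * (δ * (m / (8 * W.totient))) ≤
        ((GP m u b C1 H).card : ℝ) * (δ * (m / (8 * W.totient))) :=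
      mul_le_mul_of_nonneg_right hsel (by positivity)
    have h3 : (δ₁ * (P * W.totient)) * (δ * (m / (8 * W.totient))) =
        3 * L * (δ₁ * δ / 24 * (m.totient : ℝ)) := by
      have h4 : (δ₁ * (P * W.totient)) * (δ * (m / (8 * W.totient))) =
          δ₁ * δ / 8 * (P * m) := by
        field_simp
      rw [h4, hPm]
      ring
    rw [h3] at h2
    exact le_of_mul_le_mul_left (h2.trans h1) (by linarith)
  have hcR : ∑ p ∈ GP m u b C1 H, ((G p).card : ℝ) ≤
      (((range m).filter (fun c => c.Coprime m ∧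
        ∃ q : ℕ, q.Prime ∧ q ≡ c [MOD m] ∧ a * (m.totient * Real.log m) < q ∧
          (q : ℝ) ≤ b * (m.totient * Real.log m) ∧
          ∀ q' : ℕ, q'.Prime → q' ≡ c [MOD m] → (q' : ℝ) ≤ t * (m.totient * Real.log m) →
            q' = q)).card : ℝ) + (b * P + 1) * (Real.exp (L / 100) + 1) := by
    have h1 : (((∑ p ∈ GP m u b C1 H, (G p).card : ℕ)) : ℝ) ≤ _ := Nat.cast_le.2 hcount
    rw [Nat.cast_sum] at h1
    refine h1.trans ?_
    rw [Nat.cast_add]
    refine add_le_add (le_of_eq ?_) ?_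
    · rfl
    · push_cast
      have h2 : ((⌊b * P⌋₊ : ℕ) : ℝ) ≤ b * P := Nat.floor_le (by positivity)
      have h3 : ((⌊Real.exp (L / 100)⌋₊ : ℕ) : ℝ) ≤ Real.exp (L / 100) :=
        Nat.floor_le (Real.exp_pos _).le
      exact mul_le_mul (by linarith) (by linarith) (by positivity) (by positivity)
  have hsmall : (b * P + 1) * (Real.exp (L / 100) + 1) ≤ δ₁ * δ / 48 * (m.totient : ℝ) := by
    have h1 : (b * P + 1) * (Real.exp (L / 100) + 1) ≤
        (b * L + 1) * (Real.exp (L / 100) + 1) := by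
      refine mul_le_mul_of_nonneg_right ?_ (by positivity)
      have := mul_le_mul_of_nonneg_left hPL hb.le
      linarith
    have h2 : (1 : ℝ) ≤ P := by linarith
    have h3 : (m : ℝ) ≤ m.totient * L := by
      rw [← hPm]
      have := mul_le_mul_of_nonneg_right h2 hmR.le
      linarith
    rw [hexp] at l5
    have h4 : (b * L + 1) * (Real.exp (L / 100) + 1) * L ≤
        (δ₁ * δ / 48 * (m.totient : ℝ)) * L := by
      refine l5.trans ?_
      have h5 : δ₁ * δ / 48 * (m : ℝ) ≤ δ₁ * δ / 48 * (m.totient * L) :=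
        mul_le_mul_of_nonneg_left h3 (by positivity)
      refine h5.trans (le_of_eq ?_)
      ring
    exact h1.trans (le_of_mul_le_mul_right h4 (by linarith))
  have hfin : δ₁ * δ / 24 * (m.totient : ℝ) = δ₁ * δ / 48 * (m.totient : ℝ) +
      δ₁ * δ / 48 * (m.totient : ℝ) := by ring
  have hgoal : δ₁ * δ / 48 * (m.totient : ℝ) ≤ (((range m).filter (fun c => c.Coprime m ∧
        ∃ q : ℕ, q.Prime ∧ q ≡ c [MOD m] ∧ a * (m.totient * Real.log m) < q ∧
          (q : ℝ) ≤ b * (m.totient * Real.log m) ∧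
          ∀ q' : ℕ, q'.Prime → q' ≡ c [MOD m] → (q' : ℝ) ≤ t * (m.totient * Real.log m) →
            q' = q)).card : ℝ) := by linarith
  have hδe : c1 * δ / 96 * (b - a) = δ₁ * δ / 48 := by
    rw [hδ₁def, hudef]
    ring
  -- the constant
  have hconst : Real.exp (-Real.exp (Cs * t)) ≤ c1 * δ / 96 := by
    have h1 : c1 * δ / 96 = Real.exp (-(Real.exp (κ' * t) + Real.log (96 / c1))) := by
      rw [neg_add, Real.exp_add, ← hδdef, Real.exp_neg (Real.log (96 / c1)),
        Real.exp_log (by positivity), inv_div]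
      ring
    rw [h1]
    apply Real.exp_le_exp.2
    have h2 : Real.exp (Cs * t) = Real.exp (κ' * t) * Real.exp (|Real.log (96 / c1)| * t) := by
      rw [hCs, add_mul, Real.exp_add]
    have h3 : |Real.log (96 / c1)| * t + 1 ≤ Real.exp (|Real.log (96 / c1)| * t) :=
      Real.add_one_le_exp _
    have h4 : 1 ≤ Real.exp (κ' * t) := Real.one_le_exp (by positivity)
    have h5 : |Real.log (96 / c1)| ≤ |Real.log (96 / c1)| * t :=
      le_mul_of_one_le_right (abs_nonneg _) ht1
    have h6 := le_abs_self (Real.log (96 / c1))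
    have h7 : 0 ≤ |Real.log (96 / c1)| := abs_nonneg _
    have h8 : Real.exp (κ' * t) * (|Real.log (96 / c1)| + 1) ≤
        Real.exp (κ' * t) * Real.exp (|Real.log (96 / c1)| * t) :=
      mul_le_mul_of_nonneg_left (by linarith) (by linarith)
    have h9 : 1 * |Real.log (96 / c1)| ≤ Real.exp (κ' * t) * |Real.log (96 / c1)| :=
      mul_le_mul_of_nonneg_right h4 h7
    rw [h2]
    linarith
  have hlast : Real.exp (-Real.exp (Cs * t)) * (b - a) * (m.totient : ℝ) ≤
      δ₁ * δ / 48 * (m.totient : ℝ) := by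
    rw [← hδe]
    refine mul_le_mul_of_nonneg_right (mul_le_mul_of_nonneg_right hconst ?_) (by positivity)
    linarith
  exact hlast.trans hgoal

end

end UIP
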