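import Pool.Agent.UIP.St
import Pool.Agent.IP.PSM

set_option autoImplicit false

/-!
PSMU: the total weight of the primes of all classes and positions, uniform in the window.
-/

namespace UIP

open Finset Filter Topology Pool.Agent.Lib_helper9.LG IP

noncomputable section

open IP.PSM in
theorem t_PSMU : M_PSMU := by
  intro hTOT e he
  have hpnt : ∀ᶠ x : ℝ in atTop, |Chebyshev.theta x / x - 1| < e / 16 := by
    have := (Metric.tendsto_nhds.1 H70PNT.theta_tendsto) (e / 16) (by positivity)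
    simpa only [Real.dist_eq] using this
  obtain ⟨x₀, hx₀'⟩ := eventually_atTop.1 hpnt
  obtain ⟨m₁, hm₁⟩ := hTOT (max 1 (16 / e ^ 2))
  obtain ⟨q₀, hq₀⟩ : ∃ q₀ : ℝ, q₀ = max 5 (80 / e ^ 2) := ⟨_, rfl⟩
  obtain ⟨s₀, hs₀⟩ : ∃ s₀ : ℝ, s₀ = q₀ ^ 2 := ⟨_, rfl⟩
  refine ⟨max m₁ (max ⌈x₀⌉₊ ⌈Real.exp (s₀ ^ 2)⌉₊), ?_⟩
  intro m hm u v hu huv' hev hvL
  have hv : 0 < v := he.trans_le hev
  have hev2 : e * v ≤ v - u := by linarith
  have he2 : e ^ 2 ≤ v - u := by
    have : e * e ≤ e * v := mul_le_mul_of_nonneg_left hev he.le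
    linarith [pow_two e]
  have huv0 : 0 < v - u := lt_of_lt_of_le (by positivity) he2
  obtain ⟨ε, hε⟩ : ∃ ε, ε = (v - u) / (8 * (u + v)) := ⟨_, rfl⟩
  have hε0 : 0 < ε := by rw [hε]; positivity
  have hεe : e / 16 ≤ ε := by
    rw [hε, div_le_div_iff₀ (by norm_num) (by linarith)]
    have h1 : e * u ≤ e * v := mul_le_mul_of_nonneg_left (by linarith) he.le
    linarith
  have hx₀ : ∀ x, x₀ ≤ x → |Chebyshev.theta x / x - 1| < ε := fun x hx =>
    (hx₀' x hx).trans_le hεe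
  have hm1 : m₁ ≤ m := le_trans (le_max_left _ _) hm
  have hm2 : x₀ ≤ m := by
    have h1 : ⌈x₀⌉₊ ≤ m := le_trans (le_trans (le_max_left _ _) (le_max_right _ _)) hm
    exact (Nat.le_ceil x₀).trans (by exact_mod_cast h1)
  have hm3 : Real.exp (s₀ ^ 2) ≤ m := by
    have h1 : ⌈Real.exp (s₀ ^ 2)⌉₊ ≤ m :=
      le_trans (le_trans (le_max_right _ _) (le_max_right _ _)) hm
    exact (Nat.le_ceil _).trans (by exact_mod_cast h1)
  have hmpos : (0 : ℝ) < m := lt_of_lt_of_le (Real.exp_pos _) hm3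
  have hq05 : 5 ≤ q₀ := by rw [hq₀]; exact le_max_left _ _
  have hs05 : 5 ≤ s₀ := by rw [hs₀]; nlinarith
  have hmN : 1 ≤ m := by
    have : 0 < m := by exact_mod_cast hmpos
    exact this
  obtain ⟨L, hL⟩ : ∃ L, L = Real.log (m : ℝ) := ⟨_, rfl⟩
  have hLs : s₀ ^ 2 ≤ L := by
    rw [hL]
    have := Real.log_le_log (Real.exp_pos _) hm3
    rwa [Real.log_exp] at this
  have hL0 : 0 < L := lt_of_lt_of_le (by positivity) hLs
  have hexpL : Real.exp L = m := by rw [hL]; exact Real.exp_log hmpos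
  obtain ⟨s, hs⟩ : ∃ s, s = Real.sqrt L := ⟨_, rfl⟩
  have hs2 : s ^ 2 = L := by rw [hs]; exact Real.sq_sqrt hL0.le
  have hss : s₀ ≤ s := by
    rw [hs]
    exact Real.le_sqrt_of_sq_le hLs
  have hs5 : 5 ≤ s := hs05.trans hss
  obtain ⟨q, hq⟩ : ∃ q, q = Real.sqrt s := ⟨_, rfl⟩
  have hqs : q ^ 2 = s := by rw [hq]; exact Real.sq_sqrt (by linarith)
  have hqq : q₀ ≤ q := by
    rw [hq]
    exact Real.le_sqrt_of_sq_le (by rw [← hs₀]; exact hss)
  have hq5 : 5 ≤ q := hq05.trans hqq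
  have hq80 : 80 ≤ q * e ^ 2 := by
    have h1 : 80 / e ^ 2 ≤ q := ((le_max_right _ _).trans hq₀.ge).trans hqq
    rwa [div_le_iff₀ (by positivity)] at h1
  have hvq : v ≤ 4 * q := by
    have h1 : Real.log L = 4 * Real.log q := by
      rw [← hs2, ← hqs, ← pow_mul, Real.log_pow]
      norm_num
    have h2 : Real.log q ≤ q - 1 := Real.log_le_sub_one_of_pos (by linarith)
    rw [← hL] at hvL
    linarith
  have hsC : 16 * (1 + v) / (v - u) ≤ s := by
    rw [div_le_iff₀ huv0, ← hqs]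
    have h1 : q ^ 2 * e ^ 2 ≤ q ^ 2 * (v - u) := mul_le_mul_of_nonneg_left he2 (by positivity)
    have h2 : 80 * q ≤ q ^ 2 * e ^ 2 := by
      have := mul_le_mul_of_nonneg_left hq80 (show 0 ≤ q by linarith)
      linarith [show q * (q * e ^ 2) = q ^ 2 * e ^ 2 by ring]
    linarith
  have hsv : v ≤ s := by
    rw [← hqs]
    have h1 : 4 * q ≤ q * q := mul_le_mul_of_nonneg_right (by linarith) (by linarith)
    linarith [pow_two q]
  have hs0 : 0 < s := by linarith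
  obtain ⟨H, hH⟩ : ∃ H, H = ((m.totient : ℝ) / m) * Real.log m := ⟨_, rfl⟩
  have hHA : max 1 (16 / e ^ 2) ≤ H := by rw [hH]; exact hm₁ m hm1
  have hH1 : 1 ≤ H := (le_max_left _ _).trans hHA
  have hH16 : 16 ≤ (v - u) * H := by
    have h1 : 16 / e ^ 2 ≤ H := (le_max_right _ _).trans hHA
    rw [div_le_iff₀ (by positivity)] at h1
    have h2 : H * e ^ 2 ≤ H * (v - u) := mul_le_mul_of_nonneg_left he2 (by linarith)
    linarith
  have hH0 : 0 < H := by linarith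
  have hHL : H ≤ L := by
    rw [hH, ← hL]
    have h1 : ((m.totient : ℝ) / m) ≤ 1 := by
      rw [div_le_one hmpos]
      exact_mod_cast Nat.totient_le m
    calc ((m.totient : ℝ) / m) * L ≤ 1 * L := mul_le_mul_of_nonneg_right h1 hL0.le
      _ = L := one_mul L
  obtain ⟨U, hU⟩ : ∃ U : ℕ, U = ⌊u * H⌋₊ + 1 := ⟨_, rfl⟩
  obtain ⟨X, hX⟩ : ∃ X : ℕ, X = ⌊v * H⌋₊ := ⟨_, rfl⟩
  have hXle : (X : ℝ) ≤ v * H := by
    rw [hX]
    exact Nat.floor_le (by positivity)
  have hXge : v * H - 1 ≤ X := by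
    have := Nat.lt_floor_add_one (v * H)
    rw [← hX] at this
    linarith
  have hUle : (U : ℝ) ≤ u * H + 1 := by
    rw [hU]
    push_cast
    have := Nat.floor_le (show 0 ≤ u * H by positivity)
    linarith
  have hUX : U ≤ X := by
    have h1 : (U : ℝ) ≤ X := by
      have : u * H + 1 ≤ v * H - 1 := by linarith
      linarith
    exact_mod_cast h1
  have hU1 : 1 ≤ U := by omega
  have htot := total m u v hv.le (by rw [← hH]; exact hH0.le) U X (by rw [← hH]; exact hU)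
    (by rw [← hH]; exact hX) hUX
  refine le_trans ?_ htot
  rw [← hH, ← hL]
  have hX1 : 1 ≤ X := hU1.trans hUX
  have hXm : x₀ ≤ ((X * m : ℕ) : ℝ) := by
    have h1 : m ≤ X * m := Nat.le_mul_of_pos_left m hX1
    exact hm2.trans (by exact_mod_cast h1)
  have hUm : x₀ ≤ ((U * m : ℕ) : ℝ) := by
    have h1 : m ≤ U * m := Nat.le_mul_of_pos_left m hU1
    exact hm2.trans (by exact_mod_cast h1)
  have hXm0 : (0 : ℝ) < ((X * m : ℕ) : ℝ) := by exact_mod_cast Nat.mul_pos hX1 hmN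
  have hUm0 : (0 : ℝ) < ((U * m : ℕ) : ℝ) := by exact_mod_cast Nat.mul_pos hU1 hmN
  have t1 : (1 - ε) * ((X : ℝ) * m) - Real.log ((X * m : ℕ) : ℝ) ≤ T (X * m) := by
    have g1 := (abs_lt.1 (hx₀ _ hXm)).1
    rw [lt_sub_iff_add_lt, lt_div_iff₀ hXm0] at g1
    have g2 := le_T (X * m)
    push_cast at g1 g2 ⊢
    linarith
  have t2 : T (U * m) ≤ (1 + ε) * ((U : ℝ) * m) := by
    have g1 := (abs_lt.1 (hx₀ _ hUm)).2
    rw [sub_lt_iff_lt_add, div_lt_iff₀ hUm0] at g1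
    have g2 := T_le (U * m)
    push_cast at g1 g2 ⊢
    linarith
  have hWle := W_le m L s hs
  have hW0 : (1 : ℝ) ≤ ((WW m L : ℕ) : ℝ) := by exact_mod_cast THDd.WW_pos m L
  have hexp5 : Real.exp (5 * s) ≤ m := by
    rw [← hexpL, ← hs2, pow_two]
    apply Real.exp_le_exp.2
    exact mul_le_mul_of_nonneg_right hs5 hs0.le
  have hXlem : (X : ℝ) ≤ m := by
    have h1 : v * H ≤ s * s ^ 2 := by
      rw [hs2]
      exact mul_le_mul hsv hHL hH0.le hs0.le
    have h2 : s * s ^ 2 ≤ Real.exp s * Real.exp (2 * s) :=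
      mul_le_mul s_le (sq_le hs0) (by positivity) (Real.exp_pos s).le
    have h3 : Real.exp s * Real.exp (2 * s) ≤ Real.exp (5 * s) := by
      rw [← Real.exp_add]
      apply Real.exp_le_exp.2
      linarith
    exact hXle.trans (h1.trans (h2.trans (h3.trans hexp5)))
  have hlog : Real.log ((X * m : ℕ) : ℝ) ≤ 2 * s ^ 2 := by
    have h1 : ((X * m : ℕ) : ℝ) ≤ (m : ℝ) ^ 2 := by
      push_cast
      rw [pow_two]
      exact mul_le_mul_of_nonneg_right hXlem hmpos.le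
    have h2 := Real.log_le_log hXm0 h1
    rw [Real.log_pow, ← hL] at h2
    rw [hs2]
    push_cast at h2 ⊢
    exact h2
  have hlog0 : 0 ≤ Real.log ((X * m : ℕ) : ℝ) := Real.log_natCast_nonneg _
  have herr := err u v s H m X (WW m L : ℕ) (Real.log ((X * m : ℕ) : ℝ)) huv0 hv hs5 hH1 hXle
    hW0 hWle hlog0 hlog hsC hexp5
  have hmain := mainterm u v ε H m X U hu huv0 hmpos.le hε hH16 hXge hUle
  have hfin : (v - u) / 2 * (H * m) ≤ (v - u) * H * m * (3 / 4) - (v - u) / 8 * (H * m) := by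
    have : 0 ≤ (v - u) * (H * m) := by positivity
    linarith
  linarith

end

end UIP
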