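import Pool.Agent.UIP.St
import Pool.Agent.IP.SEL

set_option autoImplicit false

/-!
# UIP, module SELU: many good pairs, uniform in the window
-/

namespace UIP

open Finset Pool.Agent.Lib_helper9.LG IP IP.SEL

noncomputable section

open Classical in
theorem t_SELU : M_SELU := by
  intro hBT hKAV hTOT hPSM
  obtain ⟨CB, hCB, mB, hBT⟩ := hBT
  obtain ⟨CK, hCK, hKAV⟩ := hKAV
  refine ⟨8 * CB * CK, by positivity, 1 / (4 * CB), by positivity, fun e he => ?_⟩
  obtain ⟨mP, hPSM⟩ := hPSM e he
  obtain ⟨mT, hTOT⟩ := hTOT (2 / e)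
  refine ⟨max (max mB mP) (max mT 3), fun m hm u v t heu huv' hvt htL => ?_⟩
  have hm1 : mB ≤ m := (le_max_left _ _).trans ((le_max_left _ _).trans hm)
  have hm2 : mP ≤ m := (le_max_right _ _).trans ((le_max_left _ _).trans hm)
  have hm3 : mT ≤ m := (le_max_left _ _).trans ((le_max_right _ _).trans hm)
  have hm4 : 3 ≤ m := (le_max_right _ _).trans ((le_max_right _ _).trans hm)
  have hm0 : (0 : ℝ) < m := by
    have : 0 < m := by omega
    exact_mod_cast this
  have hlm : 0 ≤ Real.log m := by
    apply Real.log_nonneg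
    have : 1 ≤ m := by omega
    exact_mod_cast this
  have hu : 0 < u := he.trans_le heu
  rcases le_or_gt v u with hvu | huv
  · refine le_trans ?_ (Nat.cast_nonneg _)
    apply mul_nonpos_of_nonpos_of_nonneg
    · exact mul_nonpos_of_nonneg_of_nonpos (by positivity) (by linarith)
    · exact mul_nonneg (mul_nonneg (by positivity) hlm) (Nat.cast_nonneg _)
  have hv : 0 < v := hu.trans huv
  have hlog : v ≤ Real.log m := (hvt.trans htL).trans (Real.log_le_self hlm)
  have hT := hTOT m hm3
  have hP := hPSM m hm2 u v hu huv' (heu.trans huv.le) (hvt.trans htL)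
  have hB := hBT m hm1
  set L : ℝ := Real.log m with hL
  set W : ℕ := WW m L with hWdef
  set H' : ℝ := ((m.totient : ℝ) / m) * L with hH'
  set H : ℕ := ⌊t * H'⌋₊ with hH
  have hL0 : 0 < L := hv.trans_le hlog
  have hW1 : 1 ≤ W := WW_pos m L
  have hW0 : (0 : ℝ) < W := by exact_mod_cast hW1
  have hφ : (0 : ℝ) < W.totient := by exact_mod_cast Nat.totient_pos.2 hW1
  have hH'0 : 0 < H' := (div_pos two_pos he).trans_le hT
  have huH : 2 ≤ u * H' := by
    have h1 := (div_le_iff₀ he).1 hT
    have h2 : e * H' ≤ u * H' := mul_le_mul_of_nonneg_right heu hH'0.le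
    linarith
  have hH'L : H' ≤ L := by
    have h1 : (m.totient : ℝ) / m ≤ 1 := by
      rw [div_le_one hm0]
      exact_mod_cast Nat.totient_le m
    calc H' = ((m.totient : ℝ) / m) * L := rfl
      _ ≤ 1 * L := mul_le_mul_of_nonneg_right h1 hL0.le
      _ = L := one_mul L
  have hIm : ∀ i ∈ II m u v, 2 ≤ i ∧ (i : ℝ) ≤ L ^ 2 ∧ i ≤ H := by
    intro i hi
    unfold II at hi
    rw [mem_filter, mem_range] at hi
    obtain ⟨-, h1, h2⟩ := hi
    have h3 : (i : ℝ) ≤ v * H' := by linarith
    refine ⟨?_, ?_, ?_⟩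
    · have : (2 : ℝ) < i := huH.trans_lt h1
      have : 2 < i := by exact_mod_cast this
      omega
    · calc (i : ℝ) ≤ v * H' := h3
        _ ≤ L * L := mul_le_mul hlog hH'L hH'0.le hL0.le
        _ = L ^ 2 := by ring
    · exact Nat.le_floor (h3.trans (mul_le_mul_of_nonneg_right hvt hH'0.le))
  have hIc := card_II m u v hu huv hH'0.le
  -- the condition on pairs
  set Good : ℕ → ℕ → Prop := fun i b => (b + i * m).Coprime W ∧
    (m : ℝ) / (8 * W.totient) ≤ Th m W b i (m / W) ∧
    ((KK m W b i H).card : ℝ) ≤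
      8 * CB * CK * (((H : ℝ) + 1) * ((W.totient : ℝ) / W)) with hGood
  have hcard : ((GP m u v (8 * CB * CK) H).card : ℝ) =
      ∑ i ∈ II m u v, ∑ b ∈ range W, (if Good i b then (1 : ℝ) else 0) := by
    unfold GP
    rw [card_filter, sum_product]
    push_cast
    refine sum_congr rfl fun i _ => sum_congr rfl fun b _ => ?_
    by_cases h : Good i b
    · rw [if_pos h]
    · rw [if_neg h]
  set K0 : ℝ := ((H : ℝ) + 1) * ((W.totient : ℝ) / W) with hK0
  have hK0pos : 0 < K0 := mul_pos (by positivity) (div_pos hφ hW0)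
  set cB : ℝ := CB * (m / (W.totient : ℝ)) with hcB
  have hcB0 : 0 < cB := mul_pos hCB (div_pos hm0 hφ)
  have hpt : ∀ i ∈ II m u v, ∀ b ∈ range W, Th m W b i (m / W) ≤
      (if (b + i * m).Coprime W then (m : ℝ) / (8 * W.totient) else 0) +
      (if (b + i * m).Coprime W then ((KK m W b i H).card : ℝ) * (cB / (8 * CB * CK * K0)) else 0) +
      (if Good i b then (1 : ℝ) else 0) * cB := by
    intro i hi b hb
    have hb' := mem_range.1 hb
    obtain ⟨hi1, hi2, hi3⟩ := hIm i hi
    by_cases hc : (b + i * m).Coprime W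
    · rw [if_pos hc, if_pos hc]
      have hTB : Th m W b i (m / W) ≤ cB := hB b i hb' hc hi1 hi2
      have ha : 0 ≤ (m : ℝ) / (8 * W.totient) := by positivity
      have hb2 : 0 ≤ ((KK m W b i H).card : ℝ) * (cB / (8 * CB * CK * K0)) := by positivity
      have hc2 : 0 ≤ (if Good i b then (1 : ℝ) else 0) * cB := by
        split_ifs
        · positivity
        · simp
      by_cases h1 : (m : ℝ) / (8 * W.totient) ≤ Th m W b i (m / W)
      · by_cases h2 : ((KK m W b i H).card : ℝ) ≤ 8 * CB * CK * K0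
        · have hg : Good i b := ⟨hc, h1, h2⟩
          rw [if_pos hg]
          linarith
        · have h3 : cB ≤ ((KK m W b i H).card : ℝ) * (cB / (8 * CB * CK * K0)) := by
            rw [mul_div_assoc', le_div_iff₀ (by positivity), mul_comm cB]
            exact mul_le_mul_of_nonneg_right (not_le.1 h2).le hcB0.le
          linarith
      · have := (not_le.1 h1).le
        linarith
    · have h0 : Th m W b i (m / W) = 0 := Th_zero (by omega) hi1 hW1 hc
      rw [if_neg hc, if_neg hc]
      have hc2 : 0 ≤ (if Good i b then (1 : ℝ) else 0) * cB := by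
        split_ifs
        · positivity
        · simp
      linarith
  have hrow : ∀ i ∈ II m u v, ∑ b ∈ range W, Th m W b i (m / W) ≤
      (m : ℝ) / 4 + (∑ b ∈ range W, (if Good i b then (1 : ℝ) else 0)) * cB := by
    intro i hi
    obtain ⟨hi1, hi2, hi3⟩ := hIm i hi
    refine (sum_le_sum (hpt i hi)).trans ?_
    rw [sum_add_distrib, sum_add_distrib, ← sum_filter, ← sum_filter, sum_const, nsmul_eq_mul,
      count_cop, ← sum_mul, ← sum_mul]
    have h1 : (W.totient : ℝ) * ((m : ℝ) / (8 * W.totient)) = m / 8 := by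
      field_simp
    have h2 := hKAV m W i H (by omega) hW1 (WW_sqf m L) (WW_cop m L) hi3
    have h3 : (∑ b ∈ (range W).filter (fun b => (b + i * m).Coprime W),
        ((KK m W b i H).card : ℝ)) * (cB / (8 * CB * CK * K0)) ≤ m / 8 := by
      have h4 : 0 ≤ cB / (8 * CB * CK * K0) := by positivity
      refine (mul_le_mul_of_nonneg_right h2 h4).trans (le_of_eq ?_)
      rw [hcB, hK0]
      field_simp
    rw [h1]
    linarith
  have htot : (v - u) / 2 * (H' * m) ≤
      ((II m u v).card : ℝ) * (m / 4) + ((GP m u v (8 * CB * CK) H).card : ℝ) * cB := by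
    refine hP.trans ((sum_le_sum hrow).trans (le_of_eq ?_))
    rw [sum_add_distrib, sum_const, nsmul_eq_mul, ← sum_mul, hcard]
  have h9 : ((II m u v).card : ℝ) * (m / 4) ≤ (v - u) * H' * (m / 4) :=
    mul_le_mul_of_nonneg_right hIc (by positivity)
  have h10 : (v - u) / 4 * (H' * m) ≤ ((GP m u v (8 * CB * CK) H).card : ℝ) * cB := by
    have : (v - u) / 2 * (H' * m) - (v - u) * H' * (m / 4) = (v - u) / 4 * (H' * m) := by ring
    linarith
  have h11 : 1 / (4 * CB) * (v - u) * (H' * W.totient) * cB = (v - u) / 4 * (H' * m) := by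
    rw [hcB]
    field_simp
  rw [← h11] at h10
  exact le_of_mul_le_mul_right h10 hcB0

end

end UIP
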