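import Pool.Agent.CRE.Asm
import Pool.Agent.IPD.Asm
import Pool.Agent.UIP.FINU
import Pool.Agent.UIP.EDQU
import Pool.Agent.UIP.SELU
import Pool.Agent.UIP.PSMU
import Pool.Agent.UIP.EDPU
import Pool.Agent.UIP.BLHU
import Pool.Agent.UIP.VSHU
import Pool.Agent.UIP.KVHU
import Pool.Agent.UIP.PARH
import Pool.Agent.UIP.LARG

set_option autoImplicit false

/-!
Uniform isolated primes, every modulus: assembly.
-/

namespace UIP

open IP

theorem final : S_UIP :=
  t_FINU (t_EDQU Pool.Agent.CRE.core t_EDPU t_BLHU t_VSHU t_KVHU t_PARH t_LARG)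
    (t_SELU t_BT t_KAV t_TOT (t_PSMU t_TOT)) t_KVHU t_TOT

end UIP
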